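import Pool.Agent.H76.MO.StmtB

/-! Fresh conjugates have a large difference; unions of invariant sets in the ideal. -/

set_option autoImplicit false

open Set Pool.Agent.TK Pool.Agent.H71.VK

namespace Pool.Agent.MO

variable {c : ℕ → ℕ → W} {Sm : Pr → Prop}

/-- unions of sets in the ideal which are invariant under the same stabilizer -/
lemma nn_iUnion (G : GS c Sm) {ι : Type} (A : ι → Set ℕ) (Z : List ℕ)
    (hinv : ∀ i, ∀ p ∈ G.K, (∀ z ∈ Z, p.1 z = z) → ∀ y ∈ A i, p.1 y ∈ A i)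
    (hA : ∀ i, G.Nn (A i)) : G.Nn (⋃ i, A i) := by
  refine ⟨Z, fun Z' hZ' v hv => ?_⟩
  obtain ⟨i, hi⟩ := mem_iUnion.1 hv
  exact G.lemA (hA i) (fun p hp hfix => hinv i p hp fun z hz => hfix z (hZ' hz)) v hi

lemma sup_fix (G : GS c Sm) {p : Equiv.Perm ℕ × Equiv.Perm ℕ} (hp : p ∈ G.K) {Z : List ℕ}
    (hfix : ∀ z ∈ Z, p.1 z = z) (L : List ℕ) (j : ℕ) :
    j ∈ G.sup (L ++ Z) ↔ p.2 j ∈ G.sup (L.map p.1 ++ Z) := by
  rw [G.eqv p hp, List.map_append]
  have e : Z.map p.1 = Z := by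
    conv_rhs => rw [← List.map_id Z]
    exact List.map_congr_left hfix
  rw [e]

lemma sup_perm (G : GS c Sm) {a b : List ℕ} (h1 : a ⊆ b) (h2 : b ⊆ a) : G.sup a = G.sup b :=
  Finset.Subset.antisymm (G.mono _ _ h1) (G.mono _ _ h2)

/-- the set of the points of `P` at which `x` and `y` differ is invariant -/
lemma df_inv (G : GS c Sm) {P : Set ℕ} {Z : List ℕ}
    (hP : ∀ p ∈ G.K, (∀ z ∈ Z, p.1 z = z) → ∀ y ∈ P, p.1 y ∈ P) (x y : ℕ)
    {Z' : List ℕ} (hZ : Z ⊆ Z') (hx : x ∈ Z') (hy : y ∈ Z') :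
    ∀ p ∈ G.K, (∀ z ∈ Z', p.1 z = z) → ∀ v ∈ {v | v ∈ P ∧ ee c x v ≠ ee c y v},
      p.1 v ∈ {v | v ∈ P ∧ ee c x v ≠ ee c y v} := by
  rintro p hp hfix v ⟨hv, hne⟩
  refine ⟨hP p hp (fun z hz => hfix z (hZ hz)) v hv, ?_⟩
  have h1 := ee_iso (h := p.1) (G.aut p hp) x v
  have h2 := ee_iso (h := p.1) (G.aut p hp) y v
  rw [hfix x hx] at h1
  rw [hfix y hy] at h2
  rw [h1, h2]
  exact hne

/-- CL2: fresh conjugates have a large difference. -/
theorem pf_CL2 : T_CL2 := by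
  classical
  intro c Sm G hM P Z hP y hy hgood p hp hfix hfresh hlt hN
  obtain ⟨j0, hj0, hj0Z⟩ := Finset.not_subset.1 hgood
  have hpy : p.1 y ∈ P := hP p hp hfix y hy
  -- `T` is the support of everything
  obtain ⟨σ, h1, h2⟩ := exists_off (G.sup (y :: Z)) (G.sup (p.1 y :: y :: Z) \ G.sup (y :: Z))
    (G.sup (p.1 y :: y :: Z)) Finset.disjoint_sdiff
  obtain ⟨k, hk, hkfix⟩ := G.surj (y :: Z) σ h1
  have hkZ : ∀ z ∈ Z, k z = z := fun z hz => hkfix z (List.mem_cons_of_mem _ hz)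
  have hky : k y = y := hkfix y List.mem_cons_self
  have hu : k (p.1 y) ∈ P := hP _ hk hkZ _ hpy
  have hkK : ((k, σ) : Equiv.Perm ℕ × Equiv.Perm ℕ) ∈ G.K := hk
  -- the set of differences of `y` and the new point
  have hN2 : G.Nn {v | v ∈ P ∧ ee c y v ≠ ee c (k (p.1 y)) v} := by
    refine (hN.image hkK).mono ?_
    rintro v ⟨hv, hne⟩
    refine ⟨k.symm v, ⟨?_, ?_⟩, by simp⟩
    · have hk' : ((k, σ) : Equiv.Perm ℕ × Equiv.Perm ℕ)⁻¹ ∈ G.K := G.K.inv_mem hkK
      have h3 := hP _ hk' (fun z hz => by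
        change k.symm z = z
        rw [Equiv.symm_apply_eq]
        exact (hkZ z hz).symm) v hv
      exact h3
    · have h3 := ee_iso (h := k) (G.aut _ hkK) y (k.symm v)
      have h4 := ee_iso (h := k) (G.aut _ hkK) (p.1 y) (k.symm v)
      simp only [Equiv.apply_symm_apply] at h3 h4
      rw [hky] at h3
      rw [← h3, ← h4]
      exact hne
  -- supports over `Z` of the two new points
  have hs1 : ∀ j, j ∈ G.sup (y :: Z) → j ∉ G.sup Z → p.2 j ∈ G.sup (p.1 y :: Z) := fun j hj _ =>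
    (sup_fix G hp hfix [y] j).1 hj
  have hpj : p.2 j0 ∉ G.sup Z := by
    intro h
    have h3 := (sup_fix G hp hfix [] j0).2 (by simpa using h)
    exact hj0Z (by simpa using h3)
  have hpj1 : p.2 j0 ∈ G.sup (p.1 y :: Z) := hs1 j0 hj0 hj0Z
  have hpj2 : p.2 j0 ∉ G.sup (y :: Z) := fun h => hfresh _ h hpj hpj1
  have hpjT : p.2 j0 ∈ G.sup (p.1 y :: y :: Z) := G.mono _ _ (by
    intro a ha
    rcases List.mem_cons.1 ha with rfl | ha
    · exact List.mem_cons_self
    · exact List.mem_cons_of_mem _ (List.mem_cons_of_mem _ ha)) hpj1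
  have hσ : σ (p.2 j0) ∉ G.sup (p.1 y :: y :: Z) := h2 _ (Finset.mem_sdiff.2 ⟨hpjT, hpj2⟩)
  have hσ1 : σ (p.2 j0) ∈ G.sup (k (p.1 y) :: Z) :=
    (sup_fix G hkK hkZ [p.1 y] (p.2 j0)).1 hpj1
  -- the support of the new configuration
  have hT : ∀ i, i ∈ G.sup (k (p.1 y) :: y :: Z) → i ∈ G.sup (p.1 y :: y :: Z) →
      i ∈ G.sup (y :: Z) := by
    intro i hi hi2
    by_contra hi3
    obtain ⟨l, rfl⟩ := σ.surjective i
    have h3 : l ∈ G.sup (p.1 y :: y :: Z) := by
      have h4 := (sup_fix G hkK (Z := y :: Z) hkfix [p.1 y] l).2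
      exact h4 hi
    by_cases h5 : l ∈ G.sup (y :: Z)
    · rw [h1 l h5] at hi3
      exact hi3 h5
    · exact h2 l (Finset.mem_sdiff.2 ⟨h3, h5⟩) hi2
  have hne : p.1 y ≠ k (p.1 y) := by
    intro h
    apply hσ
    have h3 := hσ1
    rw [← h] at h3
    exact G.mono _ _ (by
      intro a ha
      rcases List.mem_cons.1 ha with rfl | ha
      · exact List.mem_cons_self
      · exact List.mem_cons_of_mem _ (List.mem_cons_of_mem _ ha)) h3
  have hlt2 : c y (k (p.1 y)) (Tm.lt true) = true := by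
    have h3 := G.aut _ hkK y (p.1 y)
    simp only at h3
    rw [hky] at h3
    rw [h3]
    exact hlt
  -- a point between `y` and `w` is a difference
  have hbt : ∀ z w, c y z (Tm.lt true) = true → c z w (Tm.lt true) = true →
      ee c y z ≠ ee c w z := by
    intro z w h3 h4 h5
    have h6 : c y z = c w z := congrArg Prod.fst h5
    rw [h6] at h3
    have h7 := hM.tra _ _ _ h3 h4
    rw [hM.irr] at h7
    exact absurd h7 (by simp)
  rcases hM.tri _ _ hne with h3 | h3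
  · -- `p y` lies between `y` and `k (p y)`
    have h4 := G.lemA (Z := k (p.1 y) :: y :: Z) hN2
      (df_inv G hP y (k (p.1 y)) (fun z hz => List.mem_cons_of_mem _ (List.mem_cons_of_mem _ hz))
        (List.mem_cons_of_mem _ List.mem_cons_self) List.mem_cons_self)
      (p.1 y) ⟨hpy, hbt _ _ hlt h3⟩
    have h5 : p.2 j0 ∈ G.sup (p.1 y :: k (p.1 y) :: y :: Z) := G.mono _ _ (by
      intro a ha
      rcases List.mem_cons.1 ha with rfl | ha
      · exact List.mem_cons_self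
      · exact List.mem_cons_of_mem _ (List.mem_cons_of_mem _ (List.mem_cons_of_mem _ ha))) hpj1
    exact hpj2 (hT _ (h4 h5) hpjT)
  · -- `k (p y)` lies between `y` and `p y`
    have h4 := G.lemA (Z := p.1 y :: y :: Z) hN
      (df_inv G hP y (p.1 y) (fun z hz => List.mem_cons_of_mem _ (List.mem_cons_of_mem _ hz))
        (List.mem_cons_of_mem _ List.mem_cons_self) List.mem_cons_self)
      (k (p.1 y)) ⟨hu, hbt _ _ hlt2 h3⟩
    have h5 : σ (p.2 j0) ∈ G.sup (k (p.1 y) :: p.1 y :: y :: Z) := G.mono _ _ (by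
      intro a ha
      rcases List.mem_cons.1 ha with rfl | ha
      · exact List.mem_cons_self
      · exact List.mem_cons_of_mem _ (List.mem_cons_of_mem _ (List.mem_cons_of_mem _ ha))) hσ1
    exact hσ (h4 h5)

end Pool.Agent.MO
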