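import Pool.Agent.H76.MO.StmtB

/-! Monotone structures: control of the definable sets. -/

set_option autoImplicit false

open Set Pool.Agent.TK Pool.Agent.H71.VK

namespace Pool.Agent.MO

variable {c : ℕ → ℕ → W}

lemma act_append (r : Tm) (p : List (Option Tm)) (q : List (Option Tm)) :
    r.act (p ++ q) = (r.act p).act q := by
  induction p generalizing r with
  | nil => rfl
  | cons o p ih =>
    cases o with
    | none => exact ih _
    | some t => exact ih _

lemma act_ty {r s : Tm} (h : r.ty.2 = s.ty.2) (p : List (Option Tm)) :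
    (r.act p).ty.2 = (s.act p).ty.2 := by
  induction p generalizing r s with
  | nil => exact h
  | cons o p ih =>
    cases o with
    | none => exact ih (r := r.neg) (s := s.neg) (by simp only [Tm.ty]; rw [h])
    | some t => exact ih (r := r.comp t) (s := s.comp t) rfl

lemma le'_refl (ε : Bool) (x : ℕ) : le' c ε x x := Or.inl rfl

lemma le'_total (h : Mo c) (ε : Bool) (x y : ℕ) : le' c ε x y ∨ le' c ε y x := by
  by_cases hxy : x = y
  · exact Or.inl (Or.inl hxy)
  · rcases h.tri x y hxy with h1 | h1 <;> cases ε
    · exact Or.inr (Or.inr (by simpa using h1))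
    · exact Or.inl (Or.inr (by simpa using h1))
    · exact Or.inl (Or.inr (by simpa using h1))
    · exact Or.inr (Or.inr (by simpa using h1))

/-- the key lemma: the value at a point between two cuts which agree outside -/
lemma key_ctl (h : Mo c) {a b q : Tm} (hab : a.ty.2 = b.ty.2) (hq : q.ty.1 = a.ty.2)
    {x y v w : ℕ} (ha : c x v a = true) (hb : c y v b = false)
    (hw : c x w (a.comp q) = c y w (b.comp q)) : c v w q = c x w (a.comp q) := by
  rw [Bool.eq_iff_iff]
  constructor
  · intro h1
    exact (h.comp a q hq.symm x w).2 ⟨v, ha, h1⟩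
  · intro h1
    rw [hw] at h1
    obtain ⟨z, hz1, hz2⟩ := (h.comp b q (by rw [hq, hab]) y w).1 h1
    rcases le'_total h q.ty.1 v z with h2 | h2
    · exact h.mon q z v w w h2 hz2 (le'_refl _ _)
    · exfalso
      have h3 := h.mon b y y z v (le'_refl _ _) hz1 (by rw [← hab, ← hq]; exact h2)
      rw [hb] at h3
      exact absurd h3 (by simp)

/-- the value of all terms at a point inside and a point outside -/
lemma ctl_val (h : Mo c) {F : Tab} {x y v w : ℕ} {p : List (Option Tm)}
    (hF : F.1.ty.2 = F.2.ty.2) (hp : c x v (F.1.act p) ≠ c y v (F.2.act p))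
    (hw : w ∉ hl c F x y) (q : Tm) : c v w q =
      (if c x v (F.1.act p) = true then
        (if q.ty.1 = (F.1.act p).ty.2 then c x w ((F.1.act p).comp q)
          else c y w ((F.2.act p).neg.comp q))
      else (if q.ty.1 = (F.1.act p).ty.2 then c y w ((F.2.act p).comp q)
          else c x w ((F.1.act p).neg.comp q))) := by
  have hw' : ∀ p', c x w (F.1.act p') = c y w (F.2.act p') := by
    intro p'
    by_contra hne
    exact hw ⟨hF, p', hne⟩
  have e1 : c x w ((F.1.act p).comp q) = c y w ((F.2.act p).comp q) := by
    have := hw' (p ++ [some q])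
    rwa [act_append, act_append] at this
  have e2 : c x w ((F.1.act p).neg.comp q) = c y w ((F.2.act p).neg.comp q) := by
    have := hw' (p ++ [none, some q])
    rwa [act_append, act_append] at this
  have hty := act_ty hF p
  by_cases h1 : c x v (F.1.act p) = true
  · have h2 : c y v (F.2.act p) = false := by
      rw [← Bool.not_eq_true]
      exact fun h3 => hp (h1.trans h3.symm)
    rw [if_pos h1]
    by_cases h3 : q.ty.1 = (F.1.act p).ty.2
    · rw [if_pos h3]
      exact key_ctl h hty h3 h1 h2 e1
    · rw [if_neg h3]
      refine key_ctl h (a := (F.2.act p).neg) (b := (F.1.act p).neg) ?_ ?_ ?_ ?_ e2.symm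
      · simp only [Tm.ty]
        rw [hty]
      · simp only [Tm.ty]
        rw [← hty]
        revert h3
        cases q.ty.1 <;> cases (F.1.act p).ty.2 <;> simp
      · rw [h.neg, h2]
        rfl
      · rw [h.neg, h1]
        rfl
  · have h1' : c x v (F.1.act p) = false := Bool.not_eq_true _ ▸ h1
    have h2 : c y v (F.2.act p) = true := by
      by_contra h3
      rw [Bool.not_eq_true] at h3
      exact hp (h1'.trans h3.symm)
    rw [if_neg h1]
    by_cases h3 : q.ty.1 = (F.1.act p).ty.2
    · rw [if_pos h3]
      exact key_ctl h hty.symm (h3.trans hty) h2 h1' e1.symm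
    · rw [if_neg h3]
      refine key_ctl h (a := (F.1.act p).neg) (b := (F.2.act p).neg) ?_ ?_ ?_ ?_ e2
      · simp only [Tm.ty]
        rw [hty]
      · simp only [Tm.ty]
        revert h3
        cases q.ty.1 <;> cases (F.1.act p).ty.2 <;> simp
      · rw [h.neg, h1']
        rfl
      · rw [h.neg, h2]
        rfl

/-- CTM: the control axiom holds in monotone structures. -/
theorem pf_CTM : T_CTM := by
  intro c h F x y v v' u e1 e2 e3
  have f1 : c x v = c x v' := congrArg Prod.snd e1
  have f2 : c y v = c y v' := congrArg Prod.snd e2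
  have key : ∀ q, c v u q = c v' u q := by
    by_cases hv : v ∈ hl c F x y
    · have hu : u ∉ hl c F x y := e3.1 hv
      obtain ⟨hF, p, hp⟩ := hv
      intro q
      have hp' : c x v' (F.1.act p) ≠ c y v' (F.2.act p) := by rwa [← f1, ← f2]
      rw [ctl_val h hF hp hu q, ctl_val h hF hp' hu q, f1]
    · have hu : u ∈ hl c F x y := by
        by_contra hu
        exact hv (e3.2 hu)
      have hv' : v' ∉ hl c F x y := fun h1 => hv ((hl_congr e1 e2).2 h1)
      obtain ⟨hF, p, hp⟩ := hu
      intro q
      have h1 := ctl_val h hF hp hv q.inv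
      have h2 := ctl_val h hF hp hv' q.inv
      rw [← f1, ← f2] at h2
      rw [← h1] at h2
      have h3 := h.inv q v u
      have h4 := h.inv q v' u
      have h5 : (!c v u q) = !c v' u q := by rw [← h3, ← h4, h2]
      exact Bool.not_inj h5
  have key2 : ∀ q, c u v q = c u v' q := by
    intro q
    have h3 := h.inv q u v
    have h4 := h.inv q u v'
    rw [key] at h3
    have h5 : (!c u v q) = !c u v' q := by rw [← h3, ← h4]
    exact Bool.not_inj h5
  unfold ee
  rw [funext key, funext key2]

end Pool.Agent.MO
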