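import Pool.Agent.H76.MO.StmtD
import Pool.Agent.H71.VK.ASM

/-! MST: Borel conditions on pieces, monotone structures. -/

set_option autoImplicit false

open Set Pool.Agent.TK Pool.Agent.H71.VK

namespace Pool.Agent.MO

namespace MST

variable {C : Type} [MeasurableSpace C]

lemma meas_bn (x y : ℕ) : Measurable fun M : St (C × W) => bn M x y :=
  measurable_snd.comp (measurable_value [x, y])

lemma meas_vl (x y : ℕ) (t : Tm) : Measurable fun M : St (C × W) => bn M x y t :=
  (measurable_pi_apply t).comp (meas_bn x y)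

lemma meas_eqt (x y : ℕ) (t : Tm) (x' y' : ℕ) (t' : Tm) :
    MeasurableSet {M : St (C × W) | bn M x y t = bn M x' y' t'} :=
  measurableSet_eq_fun (meas_vl x y t) (meas_vl x' y' t')

lemma meas_eqw (x y x' y' : ℕ) :
    MeasurableSet {M : St (C × W) | bn M x y = bn M x' y'} := by
  have h : {M : St (C × W) | bn M x y = bn M x' y'} =
      ⋂ t : Tm, {M : St (C × W) | bn M x y t = bn M x' y' t} := by
    ext M
    simp only [mem_ofPred_eq, mem_iInter, funext_iff]
  rw [h]
  exact MeasurableSet.iInter fun t => meas_eqt x y t x' y' t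

lemma meas_ee (x y x' y' : ℕ) :
    MeasurableSet {M : St (C × W) | ee (bn M) x y = ee (bn M) x' y'} := by
  have h : {M : St (C × W) | ee (bn M) x y = ee (bn M) x' y'} =
      {M : St (C × W) | bn M x y = bn M x' y'} ∩ {M : St (C × W) | bn M y x = bn M y' x'} := by
    ext M
    simp only [ee, mem_ofPred_eq, mem_inter_iff, Prod.ext_iff]
  rw [h]
  exact (meas_eqw x y x' y').inter (meas_eqw y x y' x')

lemma meas_hl (F : Tab) (x y v : ℕ) : MeasurableSet {M : St (C × W) | v ∈ hl (bn M) F x y} := by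
  have h : {M : St (C × W) | v ∈ hl (bn M) F x y} = {_M : St (C × W) | F.1.ty.2 = F.2.ty.2} ∩
      ⋃ p : List (Option Tm), {M : St (C × W) | bn M x v (F.1.act p) = bn M y v (F.2.act p)}ᶜ := by
    ext M
    simp only [hl, mem_ofPred_eq, mem_inter_iff, mem_iUnion, mem_compl_iff, ne_eq]
  rw [h]
  exact (MeasurableSet.const _).inter (MeasurableSet.iUnion fun p => (meas_eqt _ _ _ _ _ _).compl)

lemma meas_ct : MeasurableSet {M : St (C × W) | CT (bn M)} := by
  have h : {M : St (C × W) | CT (bn M)} = ⋂ (F : Tab), ⋂ (x : ℕ), ⋂ (y : ℕ), ⋂ (v : ℕ),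
      ⋂ (v' : ℕ), ⋂ (u : ℕ), ({M : St (C × W) | ee (bn M) v x = ee (bn M) v' x}ᶜ ∪
        ({M : St (C × W) | ee (bn M) v y = ee (bn M) v' y}ᶜ ∪
        (({M : St (C × W) | v ∈ hl (bn M) F x y ↔ u ∉ hl (bn M) F x y})ᶜ ∪
          {M : St (C × W) | ee (bn M) v u = ee (bn M) v' u}))) := by
    ext M
    simp only [CT, mem_ofPred_eq, mem_iInter, mem_union, mem_compl_iff, imp_iff_not_or]
  rw [h]
  refine MeasurableSet.iInter fun F => MeasurableSet.iInter fun x => MeasurableSet.iInter fun y =>
    MeasurableSet.iInter fun v => MeasurableSet.iInter fun v' => MeasurableSet.iInter fun u => ?_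
  refine (meas_ee _ _ _ _).compl.union ((meas_ee _ _ _ _).compl.union
    (MeasurableSet.union (MeasurableSet.compl ?_) (meas_ee _ _ _ _)))
  have h1 : {M : St (C × W) | v ∈ hl (bn M) F x y ↔ u ∉ hl (bn M) F x y} =
      ({M : St (C × W) | v ∈ hl (bn M) F x y} ∩ {M : St (C × W) | u ∈ hl (bn M) F x y}ᶜ) ∪
      ({M : St (C × W) | v ∈ hl (bn M) F x y}ᶜ ∩ {M : St (C × W) | u ∈ hl (bn M) F x y}) := by
    ext M
    simp only [mem_ofPred_eq, mem_inter_iff, mem_union, mem_compl_iff]
    tauto
  rw [h1]
  exact ((meas_hl F x y v).inter (meas_hl F x y u).compl).union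
    ((meas_hl F x y v).compl.inter (meas_hl F x y u))

lemma meas_allmem {A : St (C × W) → Set ℕ} (hA : ∀ x, MeasurableSet {M : St (C × W) | x ∈ A M})
    (u : List ℕ) : MeasurableSet {M : St (C × W) | ∀ z ∈ u, z ∈ A M} := by
  have h : {M : St (C × W) | ∀ z ∈ u, z ∈ A M} = ⋂ z ∈ ms u, {M : St (C × W) | z ∈ A M} := by
    ext M
    simp only [mem_ofPred_eq, mem_iInter, mem_ms]
  rw [h]
  exact MeasurableSet.biInter (to_countable _) fun z _ => hA z

end MST

open MST in
theorem pf_MST {C : Type} [MeasurableSpace C] : T_MST C := by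
  intro π
  induction π with
  | nil => exact ⟨fun x => MeasurableSet.const _, meas_ct⟩
  | cons s π ih =>
    obtain ⟨S, F, v, β⟩ := s
    obtain ⟨ih1, ih2⟩ := ih
    refine ⟨fun x => ?_, ?_⟩
    · have h : {M : St (C × W) | x ∈ st (bn M) ((S, F, v, β) :: π)} =
          {M : St (C × W) | x ∈ st (bn M) π} ∩ ({_M : St (C × W) | x ∉ v :: (S ++ zl π)} ∩
          {M : St (C × W) | x ∈ hl (bn M) F v (S.headD v) ↔ β = true}) := by
        ext M
        simp only [mem_st_cons, mem_ofPred_eq, mem_inter_iff]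
      rw [h]
      refine (ih1 x).inter ((MeasurableSet.const _).inter ?_)
      cases β with
      | true =>
        have h2 : {M : St (C × W) | x ∈ hl (bn M) F v (S.headD v) ↔ true = true} =
            {M : St (C × W) | x ∈ hl (bn M) F v (S.headD v)} := by
          ext M
          simp
        rw [h2]
        exact meas_hl F v _ x
      | false =>
        have h2 : {M : St (C × W) | x ∈ hl (bn M) F v (S.headD v) ↔ false = true} =
            {M : St (C × W) | x ∈ hl (bn M) F v (S.headD v)}ᶜ := by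
          ext M
          simp
        rw [h2]
        exact (meas_hl F v _ x).compl
    · exact ih2.inter ((meas_allmem ih1 S).inter ((ih1 v).inter (MeasurableSet.const _)))

end Pool.Agent.MO
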