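import Pool.Agent.H76.MO.RTG
import Pool.Agent.H76.MO.MST

/-!
# MVB: the moves are Borel, monotone structures
-/

set_option autoImplicit false

open Set Pool.Agent.TK Pool.Agent.H71.VK

namespace Pool.Agent.MO

open Pool.Agent.H41.ST (RelN FlatN)
open Pool.Agent.H94.VK (isoH_fih isoH_inv map_map_inv fih_add fih_rem zip_map_eq meas_rtg)

variable {C : Type} {c0 : C}

namespace MVB

/-- a map which agrees with the pairs of a zip -/
lemma map_eq_of_zip (f : ℕ → ℕ) : ∀ (l m : List ℕ), l.length = m.length →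
    (∀ p ∈ l.zip m, f p.1 = p.2) → l.map f = m
  | [], [], _, _ => rfl
  | [], _ :: _, h, _ => by simp at h
  | _ :: _, [], h, _ => by simp at h
  | a :: l, b :: m, h, key => by
    rw [List.map_cons]
    congr 1
    · exact key (a, b) (by simp)
    · exact map_eq_of_zip f l m (by simpa using h) fun p hp => key p (by
        rw [List.zip_cons_cons]
        exact List.mem_cons_of_mem _ hp)

/-! ### local automorphisms -/

/-- the data of a local automorphism move -/
abbrev DaA := Pr × List ℕ × List ℕ × List ℕ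

/-- the condition which describes a local automorphism move with type `t` -/
def CdA (t : Tr C) (d : DaA) (l m : List ℕ) (M : St (C × W)) : Prop :=
  Vd (bn M) d.1 ∧ l.length = m.length ∧
  (∀ z ∈ d.2.1, z ∈ st (bn M) d.1) ∧ (∀ z ∈ d.2.2.1, z ∈ st (bn M) d.1) ∧
  d.2.1.length = d.2.2.1.length ∧ d.2.1.length = d.2.2.2.length ∧
  FI M (zl d.1 ++ d.2.1) (st (bn M) d.1) t.1 (t.2.1 ++ d.2.2.2) t.2.2 ∧
  FI M (zl d.1 ++ d.2.2.1) (st (bn M) d.1) t.1 (t.2.1 ++ d.2.2.2) t.2.2 ∧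
  ∀ p ∈ l.zip m, p ∈ d.2.1.zip d.2.2.1 ∨ (p.1 = p.2 ∧ p.1 ∉ st (bn M) d.1)

theorem cdA_of_mv {O : Set (Tr C)} {M : St (C × W)} {l m : List ℕ}
    (h : MvA O M l m) : ∃ t ∈ O, ∃ d : DaA, CdA t d l m M := by
  classical
  obtain ⟨f, ⟨hf, π, hV, ⟨t, ht, h0, H0⟩, hfix⟩, rfl⟩ := h
  set D := st (bn M) π with hD
  have hfs : ∀ z ∈ zl π, f z = z := fun z hz => hfix z (zl_disj hV z hz)
  have hmem : ∀ a ∈ D, f a ∈ D := by
    intro a ha
    by_contra hcon
    have h1 := hfix _ hcon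
    have h2 : f a = a := f.injective h1
    rw [h2] at hcon
    exact hcon ha
  have hfD : f '' D = D := by
    ext x
    constructor
    · rintro ⟨y, hy, rfl⟩
      exact hmem y hy
    · intro hx
      by_cases h1 : f.symm x ∈ D
      · exact ⟨f.symm x, h1, f.apply_symm_apply x⟩
      · have h2 := hfix _ h1
        rw [f.apply_symm_apply] at h2
        rw [← h2] at h1
        exact absurd hx h1
  set u : List ℕ := l.filter (fun z => decide (z ∈ D)) with hu
  have huD : ∀ z ∈ u, z ∈ D := by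
    intro z hz
    rw [hu, List.mem_filter] at hz
    simpa using hz.2
  have huD' : ∀ z ∈ u.map f, z ∈ D := by
    intro z hz
    obtain ⟨w, hw, rfl⟩ := List.mem_map.1 hz
    exact hmem w (huD w hw)
  have F1 : FI M (zl π ++ u) D t.1 (t.2.1 ++ u.map h0) t.2.2 := ⟨h0, fih_add H0 u huD⟩
  have F2 : FI M (zl π ++ u.map f) D M (zl π ++ u) D :=
    (show FI M (zl π ++ u) D M (zl π ++ u.map f) D from
      ⟨_, fih_add (isoH_fih hf hfs hfD) u huD⟩).symm
  refine ⟨t, ht, (π, u, u.map f, u.map h0), hV, (List.length_map _).symm, huD, huD',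
    (List.length_map _).symm, (List.length_map _).symm, F1, F2.trans F1, ?_⟩
  intro p hp
  change p ∈ u.zip (u.map f) ∨ (p.1 = p.2 ∧ p.1 ∉ D)
  rw [← zip_map_eq]
  rw [← zip_map_eq] at hp
  obtain ⟨a, ha, rfl⟩ := List.mem_map.1 hp
  simp only
  by_cases h1 : a ∈ D
  · refine Or.inl (List.mem_map.2 ⟨a, ?_, rfl⟩)
    rw [hu, List.mem_filter]
    exact ⟨ha, by simpa using h1⟩
  · exact Or.inr ⟨(hfix a h1).symm, h1⟩

theorem mv_of_cdA (hGLA : T_GLA C c0) {O : Set (Tr C)} {M : St (C × W)} (hM : BV c0 M)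
    {l m : List ℕ} {t : Tr C} (ht : t ∈ O) {d : DaA} (h : CdA t d l m M) : MvA O M l m := by
  obtain ⟨π, u, u', w⟩ := d
  obtain ⟨hV, hlm, hu, hu', huu, huw, F1, F2, hp⟩ := h
  simp only at hV hu hu' huu huw F1 F2 hp
  have hst : (zl π).length = t.2.1.length := by
    have := F1.length
    rw [List.length_append, List.length_append] at this
    omega
  obtain ⟨g, F3⟩ := F1.trans F2.symm
  obtain ⟨F4, hg⟩ := fih_rem rfl hu F3
  obtain ⟨f, hf, hfg, hfix⟩ := hGLA M hM π hV g F4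
  obtain ⟨h1, H1⟩ := F1
  refine ⟨f, ⟨hf, π, hV, ⟨t, ht, h1, (fih_rem hst hu H1).1⟩, hfix⟩, ?_⟩
  refine map_eq_of_zip f l m hlm fun p hpm => ?_
  rcases hp p hpm with h | ⟨h2, h3⟩
  · rw [hfg _ (hu _ (List.of_mem_zip h).1)]
    exact hg p h
  · rw [hfix _ h3]
    exact h2

theorem meas_cdA [MeasurableSpace C] [StandardBorelSpace C] (hMST : T_MST C)
    (hFIMP : T_FIMP C) (t : Tr C)
    (d : DaA) (l m : List ℕ) : MeasurableSet {M : St (C × W) | CdA t d l m M} := by
  have hmem := fun π : Pr => (hMST π).1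
  unfold CdA
  refine (hMST d.1).2.inter ((MeasurableSet.const _).inter
    ((MST.meas_allmem (hmem _) _).inter ((MST.meas_allmem (hmem _) _).inter
    ((MeasurableSet.const _).inter ((MeasurableSet.const _).inter ((hFIMP _ _ _ _ _).inter
    ((hFIMP _ _ _ _ _).inter ?_)))))))
  have : {M : St (C × W) | ∀ p ∈ l.zip m, p ∈ d.2.1.zip d.2.2.1 ∨
      (p.1 = p.2 ∧ p.1 ∉ st (bn M) d.1)} =
      ⋂ p ∈ {p | p ∈ l.zip m}, {M : St (C × W) | p ∈ d.2.1.zip d.2.2.1 ∨
      (p.1 = p.2 ∧ p.1 ∉ st (bn M) d.1)} := by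
    ext M
    simp only [mem_ofPred_eq, mem_iInter]
  change MeasurableSet {M : St (C × W) | ∀ p ∈ l.zip m, p ∈ d.2.1.zip d.2.2.1 ∨
      (p.1 = p.2 ∧ p.1 ∉ st (bn M) d.1)}
  rw [this]
  refine MeasurableSet.biInter (to_countable _) fun p _ => ?_
  exact (MeasurableSet.const _).union ((MeasurableSet.const _).inter (hmem _ _).compl)

end MVB

open MVB in
theorem pf_MVB [MeasurableSpace C] [StandardBorelSpace C] (hMST : T_MST C) (hMBV : T_MBV C)
    (hFIMP : T_FIMP C) (hGLA : T_GLA C c0) : T_MVB C c0 := by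
  intro O hO l m
  have h : {M : St (C × W) | BV c0 M ∧ MvA O M l m} = {M : St (C × W) | BV c0 M} ∩
      ⋃ t ∈ O, ⋃ d : DaA, {M : St (C × W) | CdA t d l m M} := by
    ext M
    simp only [mem_inter_iff, mem_ofPred_eq, mem_iUnion, exists_prop]
    constructor
    · rintro ⟨h1, h2⟩
      exact ⟨h1, cdA_of_mv h2⟩
    · rintro ⟨h1, t, ht, d, h2⟩
      exact ⟨h1, mv_of_cdA hGLA h1 ht h2⟩
  rw [h]
  exact (hMBV c0).inter (MeasurableSet.biUnion hO fun t _ =>
    MeasurableSet.iUnion fun d => meas_cdA hMST hFIMP t d l m)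

end Pool.Agent.MO
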