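import Pool.Agent.H76.MO.SPL

/-! The node of the scheme for monotone structures. -/

set_option autoImplicit false

open Set Pool.Agent.TK Pool.Agent.H71.VK

namespace Pool.Agent.MO

/-- three disjoint good pieces -/
private theorem nod_three (hSPL : T_SPL) (c : ℕ → ℕ → W) (Sm : Pr → Prop) (G : GS c Sm)
    (hM : Mo c) (π : Pr) (hv : Vd c π) (hg : ¬ G.Nn (st c π)) :
    ∃ e : Fin 3 → Pr, (∀ i, (∃ σ : Pr, e i = σ ++ π) ∧ Vd c (e i) ∧ ¬ G.Nn (st c (e i))) ∧
      ∀ i j, i ≠ j → Disjoint (st c (e i)) (st c (e j)) := by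
  obtain ⟨S, F, x, h1, h2, h3⟩ := hSPL c Sm G hM π hv hg
  have h1' : Vd c ((S, F, x, false) :: π) := vd_flip false h1
  obtain ⟨S', F', x', k1, k2, k3⟩ := hSPL c Sm G hM _ h1' h3
  have k1' : Vd c ((S', F', x', false) :: ((S, F, x, false) :: π)) := vd_flip false k1
  have d0 := st_disj (c := c) π S F x
  have d1 := st_disj (c := c) ((S, F, x, false) :: π) S' F' x'
  have s1 : st c ((S', F', x', true) :: ((S, F, x, false) :: π)) ⊆
      st c ((S, F, x, false) :: π) := st_app (σ := [(S', F', x', true)]) k1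
  have s2 : st c ((S', F', x', false) :: ((S, F, x, false) :: π)) ⊆
      st c ((S, F, x, false) :: π) := st_app (σ := [(S', F', x', false)]) k1'
  have d01 := d0.mono_right s1
  have d02 := d0.mono_right s2
  refine ⟨![(S, F, x, true) :: π, (S', F', x', true) :: ((S, F, x, false) :: π),
    (S', F', x', false) :: ((S, F, x, false) :: π)], ?_, ?_⟩
  · intro i
    fin_cases i
    · exact ⟨⟨[(S, F, x, true)], rfl⟩, h1, h2⟩
    · exact ⟨⟨[(S', F', x', true), (S, F, x, false)], rfl⟩, k1, k2⟩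
    · exact ⟨⟨[(S', F', x', false), (S, F, x, false)], rfl⟩, k1', k3⟩
  · intro i j hij
    fin_cases i <;> fin_cases j
    · exact absurd rfl hij
    · exact d01
    · exact d02
    · exact d01.symm
    · exact absurd rfl hij
    · exact d1
    · exact d02.symm
    · exact d1.symm
    · exact absurd rfl hij

/-- a good piece contains a good piece given by a difference which avoids a list and decides
a piece -/
private theorem nod_one (c : ℕ → ℕ → W) (Sm : Pr → Prop) (G : GS c Sm) (hM : Mo c) (e : Pr)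
    (hv : Vd c e) (hg : ¬ G.Nn (st c e)) (Z : List ℕ) (ρ : Pr) (hρ : Vd c ρ)
    (hZe : dl e ⊆ Z) (hZρ : dl ρ ⊆ Z) :
    ∃ (y w : ℕ), y ∈ st c e ∧ w ∈ st c e ∧ Vd c (([w], (leT, leT), y, true) :: e) ∧
      ¬ G.Nn (st c (([w], (leT, leT), y, true) :: e)) ∧
      (∀ a ∈ Z, a ∉ st c (([w], (leT, leT), y, true) :: e)) ∧
      (st c (([w], (leT, leT), y, true) :: e) ⊆ st c ρ ∨
        Disjoint (st c (([w], (leT, leT), y, true) :: e)) (st c ρ)) := by
  obtain ⟨Z', hZ', y, hy, hyZ, hgood⟩ := GS.good_out hg Z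
  obtain ⟨p, hp, hfix, hfresh, hlt⟩ := fresh_lt hM G y Z' hgood
  have hP : ∀ p ∈ G.K, (∀ z ∈ Z', p.1 z = z) → ∀ y ∈ st c e, p.1 y ∈ st c e := by
    intro p hp hfix y hy
    rw [← st_fix p.1 (G.aut p hp) (π := e) fun a ha => hfix a (hZ' (hZe ha))]
    exact mem_image_of_mem _ hy
  have hpy := hP p hp hfix y hy
  have hne : y ≠ p.1 y := by
    intro h
    rw [← h, hM.irr] at hlt
    exact absurd hlt (by simp)
  have hvd : Vd c (([p.1 y], (leT, leT), y, true) :: e) :=
    ⟨hv, fun z hz => by rw [List.mem_singleton.1 hz]; exact hpy, hy,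
      fun h => hne (List.mem_singleton.1 h)⟩
  have hA := pf_CL2 c Sm G hM (st c e) Z' hP y hy hgood p hp hfix hfresh hlt
  have hsub : ∀ u ∈ st c (([p.1 y], (leT, leT), y, true) :: e), ee c y u ≠ ee c (p.1 y) u := by
    intro u hu
    rw [mem_st_cons] at hu
    exact (hl_df hM).1 (hu.2.2.2 rfl)
  refine ⟨y, p.1 y, hy, hpy, hvd, ?_, ?_, ?_⟩
  · intro h
    apply hA
    refine (h.union (G.nn_list (y :: ([p.1 y] ++ zl e)))).mono ?_
    rintro v ⟨hv1, hv2⟩
    by_cases h5 : v ∈ y :: ([p.1 y] ++ zl e)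
    · exact Or.inr h5
    · left
      rw [mem_st_cons]
      exact ⟨hv1, h5, fun _ => rfl, fun _ => (hl_df hM).2 hv2⟩
  · intro a ha hus
    apply hsub a hus
    have h1 := ee_iso (h := p.1) (G.aut p hp) y a
    rw [hfix a (hZ' ha)] at h1
    exact h1.symm
  · rcases df_dec p.1 (G.aut p hp) y hρ (fun a ha => hfix a (hZ' (hZρ ha))) with h | h
    · exact Or.inl fun u hu => h u (hsub u hu)
    · exact Or.inr (Set.disjoint_left.2 fun u hu => h u (hsub u hu))

/-- NOD: the node of the scheme. -/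
theorem pf_NOD : T_NOD := by
  intro c Sm G hM π hv hg Z ρ hρ
  obtain ⟨e, he, hd⟩ := nod_three pf_SPL c Sm G hM π hv hg
  obtain ⟨Y, hY⟩ : ∃ Y : List ℕ, Y = Z ++ (dl ρ ++ (dl (e 0) ++ (dl (e 1) ++ dl (e 2)))) :=
    ⟨_, rfl⟩
  have hW : ∀ i, dl (e i) ⊆ Y := by
    intro i a ha
    rw [hY, List.mem_append, List.mem_append, List.mem_append, List.mem_append]
    fin_cases i
    · exact Or.inr (Or.inr (Or.inl ha))
    · exact Or.inr (Or.inr (Or.inr (Or.inl ha)))
    · exact Or.inr (Or.inr (Or.inr (Or.inr ha)))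
  have hYρ : dl ρ ⊆ Y := by
    intro a ha
    rw [hY, List.mem_append, List.mem_append]
    exact Or.inr (Or.inl ha)
  have hYZ : Z ⊆ Y := by
    intro a ha
    rw [hY, List.mem_append]
    exact Or.inl ha
  have h1 := fun i => nod_one c Sm G hM (e i) (he i).2.1 (he i).2.2 Y ρ hρ (hW i) hYρ
  choose y w hy hw hvd hgd havo hdec using h1
  have hsub : ∀ i, st c (([w i], (leT, leT), y i, true) :: e i) ⊆ st c (e i) := fun i =>
    st_app (σ := [([w i], (leT, leT), y i, true)]) (hvd i)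
  refine ⟨fun i => ([w i], (leT, leT), y i, true) :: e i, fun i =>
    ⟨?_, hvd i, hgd i, fun a ha => havo i a (hYZ ha), ?_, ?_, hdec i⟩⟩
  · obtain ⟨σ, hσ⟩ := (he i).1
    refine ⟨([w i], (leT, leT), y i, true) :: σ, ?_⟩
    simp only [hσ, List.cons_append]
  · intro j a ha
    by_cases hij : i = j
    · subst hij
      exact zl_disj (hvd i) a (by rw [zl_eq_dl]; exact ha)
    · have ha' : a ∈ dl (([w i], (leT, leT), y i, true) :: e i) := ha
      rw [dl_cons] at ha'
      rcases List.mem_cons.1 ha' with h | h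
      · intro h'
        exact Set.disjoint_left.1 (hd i j hij) (h ▸ hy i) (hsub j h')
      · rcases List.mem_append.1 h with h | h
        · intro h'
          exact Set.disjoint_left.1 (hd i j hij) (List.mem_singleton.1 h ▸ hw i) (hsub j h')
        · exact havo j a (hW i h)
  · intro j hij
    exact (hd i j hij).mono (hsub i) (hsub j)

end Pool.Agent.MO
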