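import Pool.Agent.H76.MO.RTG

/-! RLG: the orbit relation is Borel for monotone structures. -/

set_option autoImplicit false

open Set Pool.Agent.TK Pool.Agent.H71.VK

namespace Pool.Agent.MO

open Pool.Agent.H41.ST (RelN FlatN)
open Pool.Agent.H94.VK (isoH_fih isoH_inv map_map_inv fih_add fih_rem zip_map_eq meas_rtg)

variable {C : Type} {c0 : C}

namespace RLG

lemma isA_inv {O : Set (Tr C)} {M : St (C × W)} {f : Equiv.Perm ℕ} (h : IsA O M f) :
    IsA O M f⁻¹ := by
  obtain ⟨h1, π, h2, h3, h4⟩ := h
  refine ⟨isoH_inv h1, π, h2, h3, fun x hx => ?_⟩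
  change f.symm x = x
  rw [Equiv.symm_apply_eq, h4 x hx]

lemma mvg_symm {O : Set (Tr C)} {M : St (C × W)} {l m : List ℕ} (h : MvA O M l m) :
    MvA O M m l := by
  rcases h with ⟨f, hf, rfl⟩
  exact ⟨f⁻¹, isA_inv hf, (map_map_inv f l).2⟩

theorem rlg1 (O : Set (Tr C)) (M : St (C × W)) (l m : List ℕ) : RelN (NG O M) l m ↔
    Relation.ReflTransGen (fun l m => MvA O M l m) l m := by
  constructor
  · rintro ⟨n, hn, rfl⟩
    unfold NG at hn
    revert l
    induction hn using Subgroup.closure_induction with
    | mem x hx =>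
      intro l
      exact Relation.ReflTransGen.single ⟨x, hx, rfl⟩
    | one =>
      intro l
      have : l.map (1 : Equiv.Perm ℕ) = l := by simp
      rw [this]
    | mul x y _ _ hx hy =>
      intro l
      have : l.map (x * y : Equiv.Perm ℕ) = (l.map y).map x := by
        rw [List.map_map, ← Equiv.Perm.coe_mul]
      rw [this]
      exact (hy l).trans (hx (l.map y))
    | inv x _ hx =>
      intro l
      have h1 := hx (l.map (x⁻¹ : Equiv.Perm ℕ))
      rw [(map_map_inv x l).1] at h1
      have hs' : ∀ a b, Relation.ReflTransGen (fun l m => MvA O M l m) a b →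
          Relation.ReflTransGen (fun l m => MvA O M l m) b a := by
        intro a b hab
        induction hab with
        | refl => exact Relation.ReflTransGen.refl
        | @tail b c _ h2 ih =>
          have h3 : (fun l m => MvA O M l m) c b := mvg_symm h2
          exact (Relation.ReflTransGen.single (r := fun l m => MvA O M l m) h3).trans ih
      exact hs' _ _ h1
  · intro h
    induction h with
    | refl => exact ⟨1, one_mem _, by simp⟩
    | tail _ h2 ih =>
      obtain ⟨n, hn, rfl⟩ := ih
      obtain ⟨f, hf, rfl⟩ := h2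
      refine ⟨f * n, mul_mem (Subgroup.subset_closure hf) hn, ?_⟩
      rw [List.map_map, ← Equiv.Perm.coe_mul]

end RLG

theorem pf_RLG [MeasurableSpace C] [StandardBorelSpace C] (hMBV : T_MBV C)
    (hMVB : T_MVB C c0) : T_RLG C c0 := by
  refine ⟨RLG.rlg1, ?_⟩
  intro O hO l m
  have h : {M : St (C × W) | BV c0 M ∧ RelN (NG O M) l m} = {M : St (C × W) | BV c0 M} ∩
      {M : St (C × W) | Relation.ReflTransGen
        (fun l m => BV c0 M ∧ MvA O M l m) l m} := by
    ext M
    simp only [mem_inter_iff, mem_ofPred_eq]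
    constructor
    · rintro ⟨h1, h2⟩
      refine ⟨h1, ?_⟩
      rw [RLG.rlg1 O M l m] at h2
      exact Relation.ReflTransGen.mono (r := fun l m => MvA O M l m)
        (p := fun l m => BV c0 M ∧ MvA O M l m)
        (fun _ _ hs => ⟨h1, hs⟩) _ _ h2
    · rintro ⟨h1, h2⟩
      refine ⟨h1, ?_⟩
      rw [RLG.rlg1 O M l m]
      exact Relation.ReflTransGen.mono
        (r := fun l m => BV c0 M ∧ MvA O M l m)
        (p := fun l m => MvA O M l m) (fun _ _ hs => hs.2) _ _ h2
  rw [h]
  exact (hMBV c0).inter (meas_rtg _ (fun l m => hMVB O hO l m) l m)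

end Pool.Agent.MO
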