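import Pool.Agent.H76.MO.CL2

/-! Good pieces of monotone structures can be split. -/

set_option autoImplicit false

open Set Pool.Agent.TK Pool.Agent.H71.VK

namespace Pool.Agent.MO

variable {c : ℕ → ℕ → W} {Sm : Pr → Prop}

lemma le'_total' (h : Mo c) (ε : Bool) (x y : ℕ) : le' c ε x y ∨ le' c ε y x := by
  by_cases hxy : x = y
  · exact Or.inl (Or.inl hxy)
  · rcases h.tri x y hxy with h1 | h1 <;> cases ε
    · exact Or.inr (Or.inr (by simpa using h1))
    · exact Or.inl (Or.inr (by simpa using h1))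
    · exact Or.inl (Or.inr (by simpa using h1))
    · exact Or.inr (Or.inr (by simpa using h1))

/-- two rows which differ differ at a term with source `true` -/
lemma dft (h : Mo c) {y z v : ℕ} (hne : ee c y v ≠ ee c z v) :
    ∃ t : Tm, t.ty.1 = true ∧ c y v t ≠ c z v t := by
  have h1 : ∃ t, c y v t ≠ c z v t := by
    by_contra hcon
    push Not at hcon
    apply hne
    have e1 : c y v = c z v := funext hcon
    have e2 : c v y = c v z := by
      funext t
      have h3 := h.inv t v y
      have h4 := h.inv t v z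
      rw [e1] at h3
      have h5 : (!c v y t) = !c v z t := by rw [← h3, ← h4]
      exact Bool.not_inj h5
    unfold ee
    rw [e1, e2]
  obtain ⟨t, ht⟩ := h1
  cases h2 : t.ty.1 with
  | true => exact ⟨t, h2, ht⟩
  | false =>
    refine ⟨t.neg, by simp only [Tm.ty, h2]; rfl, ?_⟩
    rw [h.neg, h.neg]
    exact fun h3 => ht (Bool.not_inj h3)

/-- the definable set given by the reflexive order is the set of differences -/
lemma hl_df (h : Mo c) {y z v : ℕ} : v ∈ hl c (leT, leT) y z ↔ ee c y v ≠ ee c z v := by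
  constructor
  · rintro ⟨-, p, hp⟩ he
    have e1 : c y v = c z v := congrArg Prod.fst he
    exact hp (by rw [e1])
  · intro hne
    obtain ⟨t, ht, hd⟩ := dft h hne
    refine ⟨rfl, [some t], ?_⟩
    have key : ∀ a, c a v (leT.comp t) = c a v t := by
      intro a
      rw [Bool.eq_iff_iff, h.comp leT t (by rw [ht]; rfl)]
      constructor
      · rintro ⟨b, hb1, hb2⟩
        refine h.mon t b a v v ?_ hb2 (Or.inl rfl)
        have h3 := h.inv (Tm.lt true) b a
        have h4 : c a b (Tm.inv (Tm.lt true)) = true := hb1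
        rw [h4] at h3
        rw [ht]
        by_cases hab : a = b
        · exact Or.inl hab
        · rcases h.tri a b hab with h5 | h5
          · exact Or.inr (by simpa using h5)
          · rw [h5] at h3
            exact absurd h3 (by simp)
      · intro ha
        refine ⟨a, ?_, ha⟩
        have h3 := h.inv (Tm.lt true) a a
        rw [h.irr] at h3
        exact h3
    change c y v (leT.comp t) ≠ c z v (leT.comp t)
    rw [key, key]
    exact hd

/-- a row between two values of another row -/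
lemma sand (h : Mo c) {a b d x : ℕ} (q : List (Option Tm)) : ∀ {r s : Tm}, r.ty.2 = s.ty.2 →
    ((∀ v, c a v r = true → c b v s = true) ∧ (∀ v, c b v s = true → c d v r = true) ∨
      (∀ v, c d v r = true → c b v s = true) ∧ (∀ v, c b v s = true → c a v r = true)) →
    c a x (r.act q) = c d x (r.act q) → c d x (r.act q) = c b x (s.act q) := by
  induction q with
  | nil =>
    intro r s _ H he
    change c a x r = c d x r at he
    change c d x r = c b x s
    rw [Bool.eq_iff_iff]
    rcases H with ⟨h1, h2⟩ | ⟨h1, h2⟩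
    · exact ⟨fun h3 => h1 x (he.trans h3), h2 x⟩
    · exact ⟨h1 x, fun h3 => he.symm.trans (h2 x h3)⟩
  | cons o q ih =>
    intro r s hty H he
    cases o with
    | none =>
      refine ih (r := r.neg) (s := s.neg) (by simp only [Tm.ty]; rw [hty]) ?_ he
      have hn : ∀ {e f : ℕ} {r s : Tm}, (∀ v, c e v r = true → c f v s = true) →
          ∀ v, c f v s.neg = true → c e v r.neg = true := by
        intro e f r s h1 v h2
        rw [h.neg] at h2 ⊢
        cases h3 : c e v r with
        | false => rfl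
        | true =>
          rw [h1 v h3] at h2
          exact absurd h2 (by simp)
      rcases H with ⟨h1, h2⟩ | ⟨h1, h2⟩
      · exact Or.inr ⟨hn h2, hn h1⟩
      · exact Or.inl ⟨hn h2, hn h1⟩
    | some t =>
      refine ih (r := r.comp t) (s := s.comp t) rfl ?_ he
      have hn : ∀ {e f : ℕ} {r s : Tm}, r.ty.2 = s.ty.2 →
          (∀ v, c e v r = true → c f v s = true) →
          ∀ v, c e v (r.comp t) = true → c f v (s.comp t) = true := by
        intro e f r s hrs h1 v h2
        by_cases h3 : r.ty.2 = t.ty.1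
        · obtain ⟨z, hz1, hz2⟩ := (h.comp r t h3 _ _).1 h2
          exact (h.comp s t (hrs ▸ h3) _ _).2 ⟨z, h1 z hz1, hz2⟩
        · rw [h.comp' r t h3] at h2
          exact absurd h2 (by simp)
      rcases H with ⟨h1, h2⟩ | ⟨h1, h2⟩
      · exact Or.inl ⟨hn hty h1, hn hty.symm h2⟩
      · exact Or.inr ⟨hn hty h1, hn hty.symm h2⟩

/-- cuts of the same direction are comparable -/
lemma cmp (h : Mo c) {r s : Tm} (hty : r.ty.2 = s.ty.2) {a b v : ℕ} (h1 : c a v r = true)
    (h2 : c b v s = false) : ∀ w, c b w s = true → c a w r = true := by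
  intro w hw
  rcases le'_total' h r.ty.2 v w with h3 | h3
  · exact h.mon r a a v w (Or.inl rfl) h1 h3
  · have h4 := h.mon s b b w v (Or.inl rfl) hw (hty ▸ h3)
    rw [h2] at h4
    exact absurd h4 (by simp)

/-- the main lemma: a point fixed by `p` is not in the definable set given by differences -/
lemma fix_out (h : Mo c) (p : Equiv.Perm ℕ) (H : ∀ x y, c (p x) (p y) = c x y) {x y v : ℕ}
    (hx : p x = x) (hlt : c y (p y) (Tm.lt true) = true)
    (h1 : ee c y v ≠ ee c (p y) v) (h2 : ee c (p.symm y) v ≠ ee c y v) :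
    ∃ F : Tab, v ∈ hl c F y y ∧ x ∉ hl c F y y := by
  obtain ⟨t', ht', hd'⟩ := dft h h1
  obtain ⟨t, ht, hd⟩ := dft h h2
  have hlt' : c (p.symm y) y (Tm.lt true) = true := by
    have h3 := H (p.symm y) y
    rw [Equiv.apply_symm_apply] at h3
    rw [← h3]
    exact hlt
  have a1 : c (p y) v t' = false := by
    by_contra h3
    rw [Bool.not_eq_false] at h3
    have h4 := h.mon t' (p y) y v v (by rw [ht']; exact Or.inr (by simpa using hlt)) h3
      (Or.inl rfl)
    exact hd' (h4.trans h3.symm)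
  have a2 : c y v t' = true := by
    by_contra h3
    rw [Bool.not_eq_true] at h3
    exact hd' (h3.trans a1.symm)
  have b1 : c y v t = false := by
    by_contra h3
    rw [Bool.not_eq_false] at h3
    have h4 := h.mon t y (p.symm y) v v (by rw [ht]; exact Or.inr (by simpa using hlt')) h3
      (Or.inl rfl)
    exact hd (h4.trans h3.symm)
  have b2 : c (p.symm y) v t = true := by
    by_contra h3
    rw [Bool.not_eq_true] at h3
    exact hd (h3.trans b1.symm)
  -- the targets are equal
  have k1 : ¬ le' c t.ty.2 (p v) v := by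
    intro h3
    have h4 : c y (p v) t = true := by
      have h5 := H (p.symm y) v
      rw [Equiv.apply_symm_apply] at h5
      rw [h5]
      exact b2
    have h5 := h.mon t y y (p v) v (Or.inl rfl) h4 h3
    rw [b1] at h5
    exact absurd h5 (by simp)
  have k2 : ¬ le' c t'.ty.2 (p v) v := by
    intro h3
    have h4 : c (p y) (p v) t' = true := by
      rw [H]
      exact a2
    have h5 := h.mon t' (p y) (p y) (p v) v (Or.inl rfl) h4 h3
    rw [a1] at h5
    exact absurd h5 (by simp)
  have hty : t'.ty.2 = t.ty.2 := by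
    by_contra hne
    have hpv : p v ≠ v := fun h3 => k1 (Or.inl h3)
    unfold le' at k1 k2
    push Not at k1 k2
    rcases h.tri _ _ hpv with h3 | h3
    · cases h4 : t.ty.2 with
      | true =>
        rw [h4] at k1
        simp [h3] at k1
      | false =>
        have h5 : t'.ty.2 = true := by
          cases h6 : t'.ty.2 with
          | true => rfl
          | false => exact absurd (h6.trans h4.symm) hne
        rw [h5] at k2
        simp [h3] at k2
    · cases h4 : t.ty.2 with
      | false =>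
        rw [h4] at k1
        simp [h3] at k1
      | true =>
        have h5 : t'.ty.2 = false := by
          cases h6 : t'.ty.2 with
          | false => rfl
          | true => exact absurd (h6.trans h4.symm) hne
        rw [h5] at k2
        simp [h3] at k2
  refine ⟨(t', t), ⟨hty, [], ?_⟩, ?_⟩
  · change c y v t' ≠ c y v t
    rw [a2, b1]
    simp
  · rintro ⟨-, q, hq⟩
    apply hq
    simp only
    refine sand h (a := p (p y)) (b := y) (d := y) (x := x) q hty (Or.inl ⟨?_, ?_⟩) ?_
    · intro w hw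
      have h3 := cmp h hty.symm b2 a1 (p.symm w) (by
        have h4 := H (p y) (p.symm w)
        rw [Equiv.apply_symm_apply] at h4
        rw [← h4]
        exact hw)
      have h4 := H (p.symm y) (p.symm w)
      rw [Equiv.apply_symm_apply, Equiv.apply_symm_apply] at h4
      rw [h4]
      exact h3
    · exact cmp h hty a2 b1
    · have h3 := H (p y) x
      have h4 := H y x
      rw [hx] at h3 h4
      rw [h3, h4]

/-- a fresh conjugate over a list -/
lemma fresh_exists (G : GS c Sm) (y : ℕ) (Z : List ℕ) (T : Finset ℕ)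
    (hgood : ¬ G.sup (y :: Z) ⊆ G.sup Z) (hT : G.sup (y :: Z) ⊆ T) :
    ∃ p ∈ G.K, (∀ z ∈ Z, p.1 z = z) ∧
      (∀ j ∈ G.sup (y :: Z), j ∉ G.sup Z → p.2 j ∉ T) ∧
      (∀ j ∈ G.sup Z, p.2 j = j) ∧
      (∀ j ∈ G.sup (y :: Z), j ∉ G.sup Z → j ∉ G.sup (p.1 y :: Z)) ∧
      ∃ j ∈ G.sup (p.1 y :: Z), j ∉ T := by
  classical
  obtain ⟨σ, h1, h2⟩ := exists_off (G.sup Z) (G.sup (y :: Z) \ G.sup Z) T Finset.disjoint_sdiff
  obtain ⟨h, hh, hfix⟩ := G.surj Z σ h1
  have h3 : ∀ j ∈ G.sup (y :: Z), j ∉ G.sup Z → σ j ∉ T := fun j hj hjZ =>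
    h2 j (Finset.mem_sdiff.2 ⟨hj, hjZ⟩)
  refine ⟨(h, σ), hh, hfix, h3, h1, ?_, ?_⟩
  · intro j hj hjZ hj2
    obtain ⟨l, rfl⟩ := σ.surjective j
    have h4 : l ∈ G.sup (y :: Z) := (sup_fix G hh hfix [y] l).2 hj2
    by_cases h5 : l ∈ G.sup Z
    · rw [h1 l h5] at hjZ
      exact hjZ h5
    · exact h3 l h4 h5 (hT hj)
  · obtain ⟨j0, hj0, hj0Z⟩ := Finset.not_subset.1 hgood
    exact ⟨σ j0, (sup_fix G hh hfix [y] j0).1 hj0, h3 j0 hj0 hj0Z⟩

/-- a fresh conjugate which is larger -/
lemma fresh_lt (hM : Mo c) (G : GS c Sm) (y : ℕ) (Z : List ℕ)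
    (hgood : ¬ G.sup (y :: Z) ⊆ G.sup Z) :
    ∃ p ∈ G.K, (∀ z ∈ Z, p.1 z = z) ∧
      (∀ j ∈ G.sup (y :: Z), j ∉ G.sup Z → j ∉ G.sup (p.1 y :: Z)) ∧
      c y (p.1 y) (Tm.lt true) = true := by
  obtain ⟨p, hp, hfix, h1, h2, h3, h4⟩ := fresh_exists G y Z (G.sup (y :: Z)) hgood
    (Finset.Subset.refl _)
  obtain ⟨j, hj, hjn⟩ := h4
  have hne : y ≠ p.1 y := by
    intro h
    rw [← h] at hj
    exact hjn hj
  rcases hM.tri _ _ hne with h5 | h5
  · exact ⟨p, hp, hfix, h3, h5⟩
  · have hq : p⁻¹ ∈ G.K := G.K.inv_mem hp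
    have hfix' : ∀ z ∈ Z, (p⁻¹).1 z = z := by
      intro z hz
      change p.1.symm z = z
      rw [Equiv.symm_apply_eq]
      exact (hfix z hz).symm
    refine ⟨p⁻¹, hq, hfix', ?_, ?_⟩
    · intro i hi hiZ hi2
      have h6 := (sup_fix G hp hfix [(p⁻¹).1 y] i).1 hi2
      have h7 : [(p⁻¹).1 y].map p.1 = [y] := by simp
      rw [h7] at h6
      exact h1 i hi hiZ h6
    · have h6 := G.aut p hp y (p.1.symm y)
      rw [Equiv.apply_symm_apply] at h6
      change c y (p.1.symm y) (Tm.lt true) = true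
      rw [← h6]
      exact h5

/-- SPL: good pieces can be split. -/
theorem pf_SPL : T_SPL := by
  classical
  intro c Sm G hM π hv hN
  by_contra hcon
  have hno : ∀ S F x, Vd c ((S, F, x, true) :: π) → G.Nn (st c ((S, F, x, true) :: π)) ∨
      G.Nn (st c ((S, F, x, false) :: π)) := by
    intro S F x h
    by_contra h1
    rw [not_or] at h1
    exact hcon ⟨S, F, x, h, h1.1, h1.2⟩
  have hinv : ∀ {ρ : Pr} {Z : List ℕ}, dl ρ ⊆ Z → ∀ p ∈ G.K, (∀ z ∈ Z, p.1 z = z) →
      ∀ y ∈ st c ρ, p.1 y ∈ st c ρ := by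
    intro ρ Z hZ p hp hfix y hy
    rw [← st_fix p.1 (G.aut p hp) (π := ρ) fun a ha => hfix a (hZ ha)]
    exact mem_image_of_mem _ hy
  obtain ⟨Z, hZ, y, hy, hyZ, hgood⟩ := GS.good_out hN (dl π)
  -- the conjugate `x` of `y`
  obtain ⟨p0, hp0, hfix0, h1, h2, h3, h4⟩ := fresh_exists G y Z (G.sup (y :: Z)) hgood
    (Finset.Subset.refl _)
  obtain ⟨x, hxdef⟩ : ∃ x, x = p0.1 y := ⟨_, rfl⟩
  have hx : x ∈ st c π := hxdef ▸ hinv hZ p0 hp0 hfix0 y hy
  have hgx : ¬ G.sup (x :: y :: Z) ⊆ G.sup (y :: Z) := by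
    obtain ⟨j, hj, hjn⟩ := h4
    intro h
    apply hjn
    refine h (G.mono _ _ ?_ hj)
    intro a ha
    rcases List.mem_cons.1 ha with rfl | ha
    · rw [← hxdef]
      exact List.mem_cons_self
    · exact List.mem_cons_of_mem _ (List.mem_cons_of_mem _ ha)
  have hgy : ¬ G.sup (y :: x :: Z) ⊆ G.sup (x :: Z) := by
    obtain ⟨j0, hj0, hj0Z⟩ := Finset.not_subset.1 hgood
    intro h
    have h5 := h (G.mono (y :: Z) _ (by
      intro a ha
      rcases List.mem_cons.1 ha with rfl | ha
      · exact List.mem_cons_self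
      · exact List.mem_cons_of_mem _ (List.mem_cons_of_mem _ ha)) hj0)
    rw [hxdef] at h5
    exact h3 j0 hj0 hj0Z h5
  -- the fresh conjugate of `y` over `x`
  obtain ⟨p, hp, hfix, hfresh, hlt⟩ := fresh_lt hM G y (x :: Z) hgy
  have hZx : dl π ⊆ x :: Z := fun a ha => List.mem_cons_of_mem _ (hZ ha)
  have hP := hinv (ρ := π) hZx
  have hq : p⁻¹ ∈ G.K := G.K.inv_mem hp
  have hfix' : ∀ z ∈ x :: Z, (p⁻¹).1 z = z := by
    intro z hz
    change p.1.symm z = z
    rw [Equiv.symm_apply_eq]
    exact (hfix z hz).symm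
  have hpy : p.1 y ∈ st c π := hP p hp hfix y hy
  have hqy : (p⁻¹).1 y ∈ st c π := hP _ hq hfix' y hy
  have hqy' : p.1.symm y ∈ st c π := hqy
  have hne : y ≠ p.1 y := by
    intro h
    rw [← h, hM.irr] at hlt
    exact absurd hlt (by simp)
  have hne' : p.1.symm y ≠ y := by
    intro h
    rw [Equiv.symm_apply_eq] at h
    exact hne h
  have hA1 := pf_CL2 c Sm G hM (st c π) (x :: Z) hP y hy hgy p hp hfix hfresh hlt
  have hA2 : ¬ G.Nn {v | v ∈ st c π ∧ ee c (p.1.symm y) v ≠ ee c y v} := by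
    intro h
    apply hA1
    refine (h.image hp).mono ?_
    rintro v ⟨hv1, hv2⟩
    refine ⟨p.1.symm v, ⟨hP _ hq hfix' v hv1, ?_⟩, by simp⟩
    have h5 := ee_iso (h := p.1) (G.aut p hp) (p.1.symm y) (p.1.symm v)
    have h6 := ee_iso (h := p.1) (G.aut p hp) y (p.1.symm v)
    rw [Equiv.apply_symm_apply] at h5 h6
    rw [Equiv.apply_symm_apply] at h5
    rw [← h5, ← h6]
    exact hv2
  -- the complements are in the ideal
  have hB : ∀ a b, a ∈ st c π → b ∈ st c π → a ≠ b →
      ¬ G.Nn {v | v ∈ st c π ∧ ee c a v ≠ ee c b v} →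
      G.Nn {v | v ∈ st c π ∧ ee c a v = ee c b v} := by
    intro a b ha hb hab hA
    have hvd : Vd c (([b], (leT, leT), a, true) :: π) :=
      ⟨hv, fun z hz => by rw [List.mem_singleton.1 hz]; exact hb, ha,
        fun h => hab (List.mem_singleton.1 h)⟩
    rcases hno _ _ _ hvd with h | h
    · exfalso
      apply hA
      refine (h.union (G.nn_list (a :: ([b] ++ zl π)))).mono ?_
      rintro v ⟨hv1, hv2⟩
      by_cases h5 : v ∈ a :: ([b] ++ zl π)
      · exact Or.inr h5
      · left
        rw [mem_st_cons]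
        exact ⟨hv1, h5, fun _ => rfl, fun _ => (hl_df hM).2 hv2⟩
    · refine (h.union (G.nn_list (a :: ([b] ++ zl π)))).mono ?_
      rintro v ⟨hv1, hv2⟩
      by_cases h5 : v ∈ a :: ([b] ++ zl π)
      · exact Or.inr h5
      · left
        rw [mem_st_cons]
        exact ⟨hv1, h5, fun h6 => absurd hv2 ((hl_df hM).1 h6), fun h6 => absurd h6 (by simp)⟩
  have hB1 := hB _ _ hy hpy hne hA1
  have hB2 := hB _ _ hqy' hy hne' hA2
  -- the union of the definable sets in the ideal
  have hU : G.Nn (⋃ i : {F : Tab // G.Nn (st c (([], F, y, true) :: π))},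
      st c (([], i.1, y, true) :: π)) := by
    refine nn_iUnion G _ (y :: dl π) (fun i => ?_) fun i => i.2
    exact hinv (by
      rw [dl_cons]
      exact fun a ha => ha)
  apply hN
  refine ((hB1.union hB2).union (hU.union (G.nn_list [y]))).mono ?_
  intro v hvP
  by_cases c1 : ee c y v = ee c (p.1 y) v
  · exact Or.inl (Or.inl ⟨hvP, c1⟩)
  by_cases c2 : ee c (p.1.symm y) v = ee c y v
  · exact Or.inl (Or.inr ⟨hvP, c2⟩)
  right
  by_cases hvy : v = y
  · right
    change v ∈ [y]
    rw [hvy]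
    exact List.mem_cons_self
  left
  obtain ⟨F, hF1, hF2⟩ := fix_out hM p.1 (G.aut p hp) (hfix x List.mem_cons_self) hlt c1 c2
  have hvd : Vd c (([], F, y, true) :: π) :=
    ⟨hv, fun z hz => absurd hz (by simp), hy, by simp⟩
  have hxy : x ∉ y :: ([] ++ zl π) := by
    intro h
    apply hgx
    refine G.sup_mem ?_
    rw [List.nil_append] at h
    rcases List.mem_cons.1 h with h | h
    · rw [h]
      exact List.mem_cons_self
    · exact List.mem_cons_of_mem _ (hZ (zl_sub_dl _ h))
  have hfalse : ¬ G.Nn (st c (([], F, y, false) :: π)) := by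
    intro h
    apply hgx
    refine G.lemA (Z := y :: Z) h (hinv ?_) x ?_
    · rw [dl_cons, List.nil_append]
      intro a ha
      rcases List.mem_cons.1 ha with rfl | ha
      · exact List.mem_cons_self
      · exact List.mem_cons_of_mem _ (hZ ha)
    · rw [mem_st_cons]
      exact ⟨hx, hxy, fun h6 => absurd h6 hF2, fun h6 => absurd h6 (by simp)⟩
  have htrue : G.Nn (st c (([], F, y, true) :: π)) := (hno _ _ _ hvd).resolve_right hfalse
  rw [mem_iUnion]
  refine ⟨⟨F, htrue⟩, ?_⟩
  rw [mem_st_cons]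
  refine ⟨hvP, ?_, fun _ => rfl, fun _ => hF1⟩
  rw [List.nil_append]
  intro h
  rcases List.mem_cons.1 h with h | h
  · exact hvy h
  · exact zl_disj hv v h hvP

end Pool.Agent.MO
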