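import Pool.Agent.H76.MO.RTG
import Pool.Agent.H41.HS.Supp
import Pool.Agent.H71.VK.HSK

/-!
# SYG: the group and the supports of a structure with a divisible quotient, monotone structures
-/

set_option autoImplicit false

open Set Topology Filter Pool.Agent.TK Pool.Agent.H71.VK Pool.Agent.H71

namespace Pool.Agent.MO

open Pool.Agent.H41.ST (RelN FlatN CorrN liftN flxN fliN flcN relN_equiv)
open Pool.Agent.H41.HS (exists_supp)

variable {C : Type} {c0 : C}

theorem pf_SYG (hEMA : T_EMA C c0) : T_SYG C c0 := by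
  classical
  intro O M hM ν φ hF hdiv
  obtain ⟨H, hH, hcl, ψ, hψ, hcont⟩ := hdiv
  obtain ⟨supp, hs1, hs2⟩ := exists_supp H hcl ψ hψ hcont
  have hs : SuppD H ψ supp := ⟨hs1, hs2⟩
  have haut : ∀ θ : H, ∀ i j, φ ((θ : Equiv.Perm ℕ) i) ((θ : Equiv.Perm ℕ) j) = φ i j :=
    fun θ => hH θ.2
  have hcorr : ∀ θ : H, CorrN (NG O M) (NG O M) M M
      (fun l m => (θ : Equiv.Perm ℕ) (ν l) = ν m) ∧
      ∀ m, ∃ l, (θ : Equiv.Perm ℕ) (ν l) = ν m := fun θ =>
    flcN _ _ M M ν ν φ φ θ hF hF (haut θ)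
  have hmono : ∀ a b : List ℕ, a ⊆ b → supp (ν a) ⊆ supp (ν b) := by
    intro a b hab
    obtain ⟨π, hπ⟩ := exists_reindex hab
    refine hs.min _ _ fun σ hσ => ?_
    obtain ⟨θ, h1, h2⟩ := hs.surj _ σ hσ
    refine ⟨θ, ?_, h2⟩
    have h3 := (hcorr θ).1.ri π b b h1
    rwa [hπ] at h3
  -- lifting with prescribed stabiliser
  have hlift : ∀ (θ : H) (a : List ℕ), (θ : Equiv.Perm ℕ) (ν a) = ν a →
      ∃ h : Equiv.Perm ℕ, IsoH h M M ∧ (∀ l : List ℕ, (θ : Equiv.Perm ℕ) (ν l) = ν (l.map h)) ∧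
        ∀ x ∈ a, h x = x := by
    intro θ a ha
    obtain ⟨h, h1, h2, h3⟩ := liftN (hcorr θ).1 (hcorr θ).2 a a ha
    refine ⟨h, h1, h3, ?_⟩
    have h4 : a.map h = a.map id := by rw [h2, List.map_id]
    exact List.map_inj_left.1 h4
  have hnil : supp (ν []) = ∅ := by
    refine Finset.subset_empty.1 (hs.min _ _ fun σ _ => ?_)
    obtain ⟨θ, hθ⟩ := hψ σ
    refine ⟨θ, ?_, hθ⟩
    obtain ⟨m, hm⟩ := (hcorr θ).1.tot []
    have h1 := (hcorr θ).1.len _ _ hm
    rw [List.length_nil, eq_comm, List.length_eq_zero_iff] at h1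
    rwa [h1] at hm
  have hunb : ∃ a, supp (ν a) ≠ ∅ := by
    by_contra hcon
    push Not at hcon
    -- a sequence converging to the identity
    have hex : ∀ n : ℕ, ∃ θ : H, (∀ i < n, (θ : Equiv.Perm ℕ) i = i) ∧ ψ θ 0 ≠ 0 := by
      intro n
      have hl : ∀ i, ∃ l, ν l = i := hF.surj
      choose l hl using hl
      obtain ⟨θ, h1, h2⟩ := hs.surj (ν ((List.range n).flatMap l)) (Equiv.swap 0 1) (by
        rw [hcon]; simp)
      refine ⟨θ, ?_, ?_⟩
      · intro i hi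
        have h3 : l i ⊆ (List.range n).flatMap l := by
          intro x hx
          exact List.mem_flatMap.2 ⟨i, List.mem_range.2 hi, hx⟩
        obtain ⟨π, hπ⟩ := exists_reindex h3
        have h4 := (hcorr θ).1.ri π _ _ h1
        rw [hπ, hl] at h4
        exact h4
      · rw [h2, Equiv.swap_apply_left]
        exact one_ne_zero
    choose θ hθ1 hθ2 using hex
    let := permTop
    have ht : Tendsto (fun n => ((θ n : H) : Equiv.Perm ℕ)) atTop (𝓝 1) := by
      refine tendsto_perm (fun a => ?_) (fun a => ?_)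
      · filter_upwards [eventually_gt_atTop a] with n hn
        exact hθ1 n a hn
      · filter_upwards [eventually_gt_atTop a] with n hn
        rw [Equiv.symm_apply_eq]
        exact (hθ1 n a hn).symm
    have ht' : Tendsto θ atTop (𝓝 (1 : H)) := by
      rw [tendsto_subtype_rng]
      exact ht
    have hev : ∀ᶠ n in atTop, ψ (θ n) 0 = 0 :=
      ht'.eventually ((hcont 0 0).mem_nhds (by
        change ψ 1 0 = 0
        rw [map_one]
        rfl))
    obtain ⟨n, hn⟩ := hev.exists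
    exact hθ2 n hn
  -- supports are not increased by points which can be moved back
  have hkey : ∀ (Z : List ℕ) (v : ℕ), (∀ k : Equiv.Perm ℕ, IsoH k M M → (∀ x ∈ Z, k x = x) →
      ∃ m ∈ NG O M, m v = k v ∧ ∀ x ∈ Z, m x = x) → supp (ν (v :: Z)) ⊆ supp (ν Z) := by
    intro Z v hmv
    refine hs.min _ _ fun σ hσ => ?_
    obtain ⟨θ, h1, h2⟩ := hs.surj _ σ hσ
    refine ⟨θ, ?_, h2⟩
    obtain ⟨h, h3, h4, h5⟩ := hlift θ Z h1
    rw [h4, hF.ker]
    obtain ⟨m, m1, m2, m3⟩ := hmv h h3 h5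
    refine (relN_equiv _).symm ⟨m, m1, ?_⟩
    refine List.map_congr_left fun x hx => ?_
    rcases List.mem_cons.1 hx with rfl | hx
    · exact m2
    · rw [m3 x hx, h5 x hx]
  refine ⟨{ K := kGroup M ν H ψ, sup := fun a => supp (ν a), aut := ?_, eqv := ?_,
            mono := hmono, surj := ?_, nil := hnil, unb := hunb, sml := ?_ }⟩
  · exact fun p hp x y => RTG.bn_iso hp.1 x y
  · rintro p ⟨hp, θ, h1, h2⟩ a n
    rw [hs.eqv θ (ν a) n, h1, h2]
  · intro a σ hσ
    obtain ⟨θ, h1, h2⟩ := hs.surj _ σ hσ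
    obtain ⟨h, h3, h4, h5⟩ := hlift θ a h1
    exact ⟨h, ⟨h3, θ, h2, h4⟩, h5⟩
  · intro π hV hS Z hZ v hv
    exact hkey Z v fun k hk hkZ => hEMA O M hM π hV hS k hk Z hZ hkZ v hv

end Pool.Agent.MO
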