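import Pool.Agent.H76.MO.Basic

/-!
Statements of group C: structures, games, replacement (sections 1, 2 of the text).
-/

set_option autoImplicit false

open Set Pool.Agent.TK Pool.Agent.H71.VK

namespace Pool.Agent.MO

/-- PIB: partial isomorphisms of binary structures. -/
def T_PIB (C : Type) : Prop :=
  ∀ (c0 : C) (M M' : St (C × W)) (p : List (ℕ × ℕ)), BV c0 M → BV c0 M' →
    (PI M M' p ↔ (∀ q ∈ p, ∀ q' ∈ p, (q.1 = q'.1 ↔ q.2 = q'.2)) ∧
      (∀ q ∈ p, M.2 [q.1] = M'.2 [q.2]) ∧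
      ∀ q ∈ p, ∀ q' ∈ p, bn M q.1 q'.1 = bn M' q.2 q'.2)

/-- ISB: isomorphisms of binary structures. -/
def T_ISB (C : Type) : Prop :=
  ∀ (c0 : C) (M M' : St (C × W)) (h : Equiv.Perm ℕ), BV c0 M → BV c0 M' →
    (IsoH h M M' ↔ (∀ x, M.2 [x] = M'.2 [h x]) ∧ ∀ x y, bn M' (h x) (h y) = bn M x y)

/-- MEM: membership in pieces is preserved in positions of rank `om2`. -/
def T_MEM (C : Type) : Prop :=
  ∀ (M M' : St (C × W)) (π : Pr) (h : ℕ → ℕ) (p : List (ℕ × ℕ)), bf M M' univ univ om2 p →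
    (∀ a ∈ dl π, (a, h a) ∈ p) →
    (Vd (bn M) π ↔ Vd (bn M') (mp h π)) ∧
    ∀ q ∈ p, (q.1 ∈ st (bn M) π ↔ q.2 ∈ st (bn M') (mp h π))

/-- FBP: equivalent parameters define equivalent pieces. -/
def T_FBP (C : Type) : Prop :=
  ∀ (M M' : St (C × W)) (π : Pr) (h : ℕ → ℕ) (p : List (ℕ × ℕ)) (r : Rk),
    bf M M' univ univ (Sh om2 r) p → (∀ a ∈ dl π, (a, h a) ∈ p) →
    FB r M (zl π) (st (bn M) π) M' (zl (mp h π)) (st (bn M') (mp h π))

/-- IOT: isomorphisms respect the types of pieces. -/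
def T_IOT (C : Type) : Prop :=
  ∀ (M N : St (C × W)) (h : Equiv.Perm ℕ) (π : Pr), IsoH h M N →
    (∀ x y, bn N (h x) (h y) = bn M x y) ∧
    FI M (zl π) (st (bn M) π) N (zl (mp h π)) (st (bn N) (mp h π)) ∧
    (∀ O : Set (Tr C), InO O M (zl π) (st (bn M) π) ↔
      InO O N (zl (mp h π)) (st (bn N) (mp h π)))

section
variable {C : Type}

/-- the situation of the replacement lemmas -/
abbrev RAx {ι : Type} (c0 : C) (b : Rk) (M : St (C × W)) (B : ι → Set ℕ)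
    (z : ι → List ℕ) (R : ι → St (C × W)) : Prop := RA c0 b M B z R

end

/-- RPB: facts on the replaced structure. `rh` is the identity outside the blocks of `T`. -/
def T_RPB (C : Type) : Prop :=
  ∀ (ι : Type) (c0 : C) (b : Rk) (M : St (C × W)) (B : ι → Set ℕ) (z : ι → List ℕ)
    (R : ι → St (C × W)), RA c0 b M B z R → ∀ T : Set ι,
    BV c0 (rp M B z R T) ∧
    (∀ x, (∀ i ∈ T, x ∉ B i) → rh M B z R T x = x) ∧
    (∀ i ∈ T, ∀ x ∈ B i, rh M B z R T x ∈ B i ∧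
      tp (bn M) (z i) (rh M B z R T x) = tp (bn (R i)) (z i) x) ∧
    (∀ x, (∀ i ∈ T, x ∉ B i) → (rp M B z R T).2 [x] = M.2 [x]) ∧
    (∀ i ∈ T, ∀ x ∈ B i, (rp M B z R T).2 [x] = (R i).2 [x]) ∧
    (∀ i ∈ T, ∀ x ∈ B i, ∀ y ∈ B i, bn (rp M B z R T) x y = bn (R i) x y) ∧
    (∀ x y, (∀ i ∈ T, x ∈ B i → y ∉ B i) →
      bn (rp M B z R T) x y = bn M (rh M B z R T x) (rh M B z R T y)) ∧
    (∀ i ∈ T, ∀ x ∈ B i, tp (bn (rp M B z R T)) (z i) x = tp (bn (R i)) (z i) x)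

/-- PSE: extension of positions. -/
def T_PSE (C : Type) : Prop :=
  ∀ (ι : Type) (c0 : C) (b : Rk) (M : St (C × W)) (B : ι → Set ℕ) (z : ι → List ℕ)
    (R : ι → St (C × W)), RA c0 b M B z R → ∀ (Δ : Set ι),
    (∀ k : List ℕ, (∀ x ∈ k, ∀ i ∈ Δ, x ∉ B i) → Ps M B z R Δ b (dg k)) ∧
    (∀ (r s : Rk) (p : List (ℕ × ℕ)), RLe (C × W) r s → Ps M B z R Δ s p → Ps M B z R Δ r p) ∧
    (∀ (r : Rk) (p p' : List (ℕ × ℕ)), (∀ q ∈ p', q ∈ p) → Ps M B z R Δ r p →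
      Ps M B z R Δ r p') ∧
    (∀ (r : Rk) (p : List (ℕ × ℕ)) (x : ℕ), Ps M B z R Δ r p → (∀ i ∈ Δ, x ∉ B i) →
      Ps M B z R Δ r ((x, x) :: p)) ∧
    ∀ (f : ℕ → Rk) (p : List (ℕ × ℕ)), Ps M B z R Δ (Rk.sup f) p → ∀ m,
      (∀ a, ∃ a', Ps M B z R Δ (f m) ((a, a') :: p)) ∧
      ∀ a', ∃ a, Ps M B z R Δ (f m) ((a, a') :: p)

/-- COM: the composition lemma. -/
def T_COM (C : Type) : Prop :=
  ∀ (ι : Type) (c0 : C) (b : Rk) (M : St (C × W)) (B : ι → Set ℕ) (z : ι → List ℕ)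
    (R : ι → St (C × W)), RA c0 b M B z R → ∀ (T T' : Set ι), T' ⊆ T →
    ∀ (r : Rk) (p : List (ℕ × ℕ)), Ps M B z R (T \ T') r p →
      bf (rp M B z R T) (rp M B z R T') univ univ r p

/-- RP0: nothing is replaced; and the replaced structure depends on the replaced blocks only. -/
def T_RP0 (C : Type) : Prop :=
  ∀ (ι : Type) (M : St (C × W)) (B : ι → Set ℕ) (z : ι → List ℕ) (R R' : ι → St (C × W)),
    rp M B z R ∅ = M ∧ ∀ T : Set ι, (∀ i ∈ T, R i = R' i) → (∀ i ∈ T, ∀ j ∈ T, i ≠ j →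
      Disjoint (B i) (B j)) → rp M B z R T = rp M B z R' T

/-- MEX: replacement stays in the class. -/
def T_MEX (C : Type) [MeasurableSpace C] : Prop :=
  ∀ (ι : Type) (c0 : C) (b : Rk) (X : Set (St (C × W))), Hy c0 b X → ∀ M ∈ X,
    ∀ (B : ι → Set ℕ) (z : ι → List ℕ) (R : ι → St (C × W)), RA c0 b M B z R →
    ∀ T : Set ι, rp M B z R T ∈ X

/-- MES: the replaced structure depends on the set of the replaced blocks in a Borel way. -/
def T_MES (C : Type) [MeasurableSpace C] : Prop :=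
  ∀ (ι : Type) [Countable ι] (c0 : C) (b : Rk) (M : St (C × W)) (B : ι → Set ℕ)
    (z : ι → List ℕ) (R : ι → St (C × W)), RA c0 b M B z R →
    ∀ φ : (ℕ → Bool) → Set ι, (∀ i, MeasurableSet {y | i ∈ φ y}) →
      Measurable (fun y => rp M B z R (φ y))

/-- BLK: the type of a replaced block. -/
def T_BLK (C : Type) : Prop :=
  ∀ (ι : Type) (c0 : C) (b : Rk) (M : St (C × W)) (B : ι → Set ℕ) (z : ι → List ℕ)
    (R : ι → St (C × W)), RA c0 b M B z R → ∀ (T : Set ι), ∀ i ∈ T,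
    FI (rp M B z R T) (z i) (B i) (R i) (z i) (B i)

/-- INV: presentations which avoid the blocks define the same sets if the blocks are not split. -/
def T_INV (C : Type) : Prop :=
  ∀ (ι : Type) (c0 : C) (b : Rk) (M : St (C × W)) (B : ι → Set ℕ) (z : ι → List ℕ)
    (R : ι → St (C × W)), RA c0 b M B z R → ∀ (T : Set ι) (π : Pr),
    (∀ a ∈ dl π, ∀ i ∈ T, a ∉ B i) →
    (Vd (bn (rp M B z R T)) π ↔ Vd (bn M) π) ∧
    (∀ x, (∀ i ∈ T, x ∉ B i) → (x ∈ st (bn (rp M B z R T)) π ↔ x ∈ st (bn M) π)) ∧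
    ((∀ i ∈ T, B i ⊆ st (bn M) π ∨ Disjoint (B i) (st (bn M) π)) →
      st (bn (rp M B z R T)) π = st (bn M) π)

/-- TYP: a piece which misses the additional blocks is isomorphic to a piece of the structure in
which they are not replaced. -/
def T_TYP (C : Type) : Prop :=
  ∀ (ι : Type) (c0 : C) (b : Rk) (M : St (C × W)) (B : ι → Set ℕ) (z : ι → List ℕ)
    (R : ι → St (C × W)), RA c0 b M B z R → ∀ (T T' : Set ι), T' ⊆ T → ∀ π : Pr,
    Vd (bn (rp M B z R T)) π →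
    (∀ i ∈ T, i ∉ T' → Disjoint (B i) (st (bn (rp M B z R T)) π)) →
    ∃ π' : Pr, Vd (bn (rp M B z R T')) π' ∧
      st (bn (rp M B z R T')) π' = st (bn (rp M B z R T)) π ∧
      FI (rp M B z R T) (zl π) (st (bn (rp M B z R T)) π)
        (rp M B z R T') (zl π') (st (bn (rp M B z R T')) π')

/-- DCD: pieces of the replaced structure are decided where pieces of `M` are decided. -/
def T_DCD (C : Type) : Prop :=
  ∀ (ι : Type) (c0 : C) (b : Rk) (M : St (C × W)) (B : ι → Set ℕ) (z : ι → List ℕ)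
    (R : ι → St (C × W)), RA c0 b M B z R → ∀ (T : Set ι) (π : Pr),
    Vd (bn (rp M B z R T)) π → ∃ π' : Pr, Vd (bn M) π' ∧ ∀ Q : Set ℕ,
      (∀ i ∈ T, B i ⊆ Q ∨ Disjoint (B i) Q) →
      (Q ⊆ st (bn M) π' → Q ⊆ st (bn (rp M B z R T)) π) ∧
      (Disjoint Q (st (bn M) π') → Disjoint Q (st (bn (rp M B z R T)) π))

/-- EXN: a big triple has equivalent triples of new type on the same set. -/
def T_EXN (C : Type) : Prop :=
  ∀ (c0 : C) (b : Rk) (M : St (C × W)) (z : List ℕ) (P : Set ℕ), BV c0 M →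
    RLe (C × W) (Rk.lim (Rk.lim om2)) b → (∀ a ∈ z, a ∉ P) → ¬ sml c0 b M z P →
    ∀ T : Set (Tr C), T.Countable → ∃ R : St (C × W), BV c0 R ∧ FB b M z P R z P ∧
      ¬ InO T R z P

/-- CTB: countably many types of small pieces. -/
def T_CTB (C : Type) : Prop :=
  ∀ (c0 : C) (X : Set (St (C × W))), (∀ M ∈ X, BV c0 M) → TC X → ∀ b : Rk,
    ∃ O : Set (Tr C), O.Countable ∧ ∀ M ∈ X, ∀ π : Pr, Vd (bn M) π →
      sml c0 b M (zl π) (st (bn M) π) → InO O M (zl π) (st (bn M) π)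

end Pool.Agent.MO
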