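import Pool.Agent.H76.MO.BasicB
import Pool.Agent.H71.VK.FIM
import Pool.Agent.H94.VK.MVM

/-!
Statements of group D: the group generated by local automorphisms. Copy of H41/CW/StmtD without
swaps.
-/

set_option autoImplicit false

open Set Pool.Agent.TK Pool.Agent.H71.VK

namespace Pool.Agent.MO

open Pool.Agent.H41.ST (RelN FlatN)

/-- MST: membership in pieces and validity of presentations are Borel. -/
def T_MST (C : Type) [MeasurableSpace C] : Prop :=
  ∀ π : Pr, (∀ x, MeasurableSet {M : St (C × W) | x ∈ st (bn M) π}) ∧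
    MeasurableSet {M : St (C × W) | Vd (bn M) π}

/-- MBV: the class of binary structures is Borel. -/
def T_MBV (C : Type) [MeasurableSpace C] [StandardBorelSpace C] : Prop :=
  ∀ (c0 : C), MeasurableSet {M : St (C × W) | BV c0 M}

/-- FIMP: isomorphism of a piece with a fixed triple is Borel. -/
def T_FIMP (C : Type) [MeasurableSpace C] [StandardBorelSpace C] : Prop :=
  ∀ (a : List ℕ) (π : Pr) (N : St (C × W)) (b : List ℕ) (E : Set ℕ),
    MeasurableSet {M : St (C × W) | FI M a (st (bn M) π) N b E}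

/-- GLA: gluing of an automorphism of a piece. -/
def T_GLA (C : Type) (c0 : C) : Prop :=
  ∀ (M : St (C × W)), BV c0 M → ∀ π : Pr, Vd (bn M) π → ∀ g : ℕ → ℕ,
    FIh g M (zl π) (st (bn M) π) M (zl π) (st (bn M) π) →
    ∃ f : Equiv.Perm ℕ, IsoH f M M ∧ (∀ a ∈ st (bn M) π, f a = g a) ∧
      ∀ x, x ∉ st (bn M) π → f x = x

/-- MVB: the moves by local automorphisms are Borel. -/
def T_MVB (C : Type) (c0 : C) [MeasurableSpace C] [StandardBorelSpace C] : Prop :=
  ∀ (O : Set (Tr C)), O.Countable → ∀ l m : List ℕ,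
    MeasurableSet {M : St (C × W) | BV c0 M ∧ MvA O M l m}

/-- RLG: the orbit relation is generated by the moves, and it is Borel. -/
def T_RLG (C : Type) (c0 : C) [MeasurableSpace C] [StandardBorelSpace C] : Prop :=
  (∀ (O : Set (Tr C)) (M : St (C × W)) (l m : List ℕ), RelN (NG O M) l m ↔
    Relation.ReflTransGen (fun l m => MvA O M l m) l m) ∧
  ∀ (O : Set (Tr C)), O.Countable → ∀ l m : List ℕ,
    MeasurableSet {M : St (C × W) | BV c0 M ∧ RelN (NG O M) l m}

/-- RTG: transport of the orbit relation. -/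
def T_RTG (C : Type) : Prop :=
  ∀ (O : Set (Tr C)) (M N : St (C × W)) (h : Equiv.Perm ℕ), IsoH h M N → ∀ l m : List ℕ,
    RelN (NG O M) l m → RelN (NG O N) (l.map h) (m.map h)

/-- EMA: an automorphism which fixes the parameters of a piece with type in `O` agrees at a point
of the piece with an element of the group. -/
def T_EMA (C : Type) (c0 : C) : Prop :=
  ∀ (O : Set (Tr C)) (M : St (C × W)), BV c0 M → ∀ π : Pr, Vd (bn M) π →
    InO O M (zl π) (st (bn M) π) → ∀ (k : Equiv.Perm ℕ), IsoH k M M → ∀ Z : List ℕ, dl π ⊆ Z →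
    (∀ x ∈ Z, k x = x) → ∀ v ∈ st (bn M) π,
      ∃ m ∈ NG O M, m v = k v ∧ ∀ x ∈ Z, m x = x

/-- GNG: the general theorem for the group `NG`. -/
def T_GNG (C : Type) (c0 : C) [MeasurableSpace C] [StandardBorelSpace C] : Prop :=
  ∀ (O : Set (Tr C)), O.Countable → ∀ X : Set (St (C × W)), MeasurableSet X →
    (∀ M ∈ X, BV c0 M) → ∀ P : St (C × W) → Prop,
    (∀ M ∈ X, ∀ (ν : List ℕ → ℕ) (φ : Y (C × W)), FlatN (NG O M) M ν φ → PDiv (AutY φ) → P M) →
    Perf X ∨ (∃ T' : Set (St (C × W)), T'.Countable ∧ ∀ M ∈ X, ∃ N ∈ T', Iso M N) ∨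
      ¬ ∃ T' : Set (St (C × W)), T'.Countable ∧ ∀ M ∈ X, P M → ∃ N ∈ T', Iso M N

/-- SYG: the interface of the group. -/
def T_SYG (C : Type) (c0 : C) : Prop :=
  ∀ (O : Set (Tr C)) (M : St (C × W)), BV c0 M →
    ∀ (ν : List ℕ → ℕ) (φ : Y (C × W)), FlatN (NG O M) M ν φ → PDiv (AutY φ) →
      Nonempty (GS (bn M) (SmO O M))

/-- GRP: a member with a group. -/
def T_GRP (C : Type) (c0 : C) [MeasurableSpace C] [StandardBorelSpace C] : Prop :=
  ∀ (O : Set (Tr C)), O.Countable → ∀ X : Set (St (C × W)), MeasurableSet X →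
    (∀ M ∈ X, BV c0 M) → ¬ Perf X →
    (¬ ∃ T' : Set (St (C × W)), T'.Countable ∧ ∀ M ∈ X, ∃ N ∈ T', Iso M N) →
    ∃ M ∈ X, Nonempty (GS (bn M) (SmO O M))

/-- GRP from GNG and SYG -/
theorem grp_of {C : Type} {c0 : C} [MeasurableSpace C] [StandardBorelSpace C]
    (h1 : T_GNG C c0) (h2 : T_SYG C c0) : T_GRP C c0 := by
  intro O hO X hX hV hP hT
  rcases h1 O hO X hX hV (fun M => Nonempty (GS (bn M) (SmO O M)))
    (fun M hM ν φ hF hd => h2 O M (hV M hM) ν φ hF hd) with h | h | h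
  · exact absurd h hP
  · exact absurd h hT
  · by_contra hcon
    push Not at hcon
    exact h ⟨∅, countable_empty, fun M hM hG => absurd hG (not_nonempty_iff.2 (hcon M hM))⟩

end Pool.Agent.MO
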