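import Pool.Agent.H76.MO.Defs
import Pool.Agent.H16.TK.BF
import Pool.Agent.H16.TK.Base

/-! Basic facts on pieces. -/

set_option autoImplicit false

open Set Pool.Agent.TK Pool.Agent.H71.VK

namespace Pool.Agent.MO

variable {c : ℕ → ℕ → W}

lemma ee_swap (c : ℕ → ℕ → W) (x y : ℕ) : (ee c x y).swap = ee c y x := rfl

lemma ee_eq_iff {x y x' y' : ℕ} : ee c x y = ee c x' y' ↔ ee c y x = ee c y' x' := by
  unfold ee
  simp only [Prod.mk.injEq]
  tauto

lemma tp_append (c : ℕ → ℕ → W) (L L' : List ℕ) (x : ℕ) :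
    tp c (L ++ L') x = tp c L x ++ tp c L' x := by
  unfold tp
  rw [List.map_append]

lemma tp_eq_iff {L : List ℕ} {x x' : ℕ} : tp c L x = tp c L x' ↔ ∀ s ∈ L, ee c x s = ee c x' s := by
  unfold tp
  exact List.map_inj_left

lemma tp_length (c : ℕ → ℕ → W) (L : List ℕ) (x : ℕ) : (tp c L x).length = L.length := by
  unfold tp
  exact List.length_map _

lemma tp_mono {L L' : List ℕ} (h : L ⊆ L') {x x' : ℕ} (hx : tp c L' x = tp c L' x') :
    tp c L x = tp c L x' := by
  rw [tp_eq_iff] at hx ⊢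
  exact fun s hs => hx s (h hs)

lemma hl_congr {F : Tab} {x y v v' : ℕ} (h1 : ee c v x = ee c v' x) (h2 : ee c v y = ee c v' y) :
    v ∈ hl c F x y ↔ v' ∈ hl c F x y := by
  have e1 : c x v = c x v' := congrArg Prod.snd h1
  have e2 : c y v = c y v' := congrArg Prod.snd h2
  unfold hl
  simp only [Set.mem_ofPred_eq]
  rw [e1, e2]

lemma zl_cons (s : Stp) (π : Pr) : zl (s :: π) = s.2.2.1 :: (s.1 ++ zl π) := rfl

lemma dl_cons (s : Stp) (π : Pr) : dl (s :: π) = s.2.2.1 :: (s.1 ++ dl π) := rfl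

lemma zl_eq_dl : ∀ π : Pr, zl π = dl π
  | [] => rfl
  | s :: π => by rw [zl_cons, dl_cons, zl_eq_dl π]

lemma mem_st_cons {s : Stp} {π : Pr} {v : ℕ} : v ∈ st c (s :: π) ↔ v ∈ st c π ∧
    v ∉ s.2.2.1 :: (s.1 ++ zl π) ∧
    (v ∈ hl c s.2.1 s.2.2.1 (s.1.headD s.2.2.1) ↔ s.2.2.2 = true) := Iff.rfl

lemma vd_cons {s : Stp} {π : Pr} : Vd c (s :: π) ↔
    Vd c π ∧ (∀ a ∈ s.1, a ∈ st c π) ∧ s.2.2.1 ∈ st c π ∧ s.2.2.1 ∉ s.1 := Iff.rfl

lemma vd_CT : ∀ {π : Pr}, Vd c π → CT c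
  | [], h => h
  | _ :: _, h => vd_CT (vd_cons.1 h).1

lemma headD_mem (S : List ℕ) (x : ℕ) : S.headD x ∈ x :: S := by
  cases S with
  | nil => exact List.mem_cons_self
  | cons a S => exact List.mem_cons_of_mem _ List.mem_cons_self

/-- the control list is disjoint from the piece; the piece is controlled by it -/
lemma ctl_aux : ∀ {π : Pr}, Vd c π → (∀ a ∈ zl π, a ∉ st c π) ∧
    ∀ x ∈ st c π, ∀ x' ∈ st c π, tp c (zl π) x = tp c (zl π) x' →
      ∀ y, y ∉ st c π → ee c x y = ee c x' y := by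
  intro π
  induction π with
  | nil =>
    intro _
    exact ⟨by simp [zl], fun x _ x' _ _ y hy => absurd (mem_univ y) hy⟩
  | cons s π ih =>
    obtain ⟨S, F, v, β⟩ := s
    intro hv
    obtain ⟨h1, h2, h3, h4⟩ := vd_cons.1 hv
    obtain ⟨i1, i2⟩ := ih h1
    refine ⟨fun a ha h => (mem_st_cons.1 h).2.1 ha, ?_⟩
    intro x hx x' hx' hxx y hy
    rw [mem_st_cons] at hx hx' hy
    rw [zl_cons] at hxx
    simp only at hx hx' hy hxx
    by_cases hyP : y ∈ st c π
    · by_cases hyL : y ∈ v :: (S ++ zl π)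
      · exact tp_eq_iff.1 hxx y hyL
      · have e1 : ee c x v = ee c x' v := tp_eq_iff.1 hxx v List.mem_cons_self
        have e2 : ee c x (S.headD v) = ee c x' (S.headD v) := by
          refine tp_eq_iff.1 hxx _ ?_
          rcases List.mem_cons.1 (headD_mem S v) with h | h
          · rw [h]
            exact List.mem_cons_self
          · exact List.mem_cons_of_mem _ (List.mem_append_left _ h)
        refine vd_CT h1 F v (S.headD v) x x' y e1 e2 ?_
        have h5 : ¬ (y ∈ hl c F v (S.headD v) ↔ β = true) := fun h => hy ⟨hyP, hyL, h⟩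
        rw [hx.2.2]
        tauto
    · refine i2 x hx.1 x' hx'.1 (tp_mono ?_ hxx) y hyP
      exact fun a ha => List.mem_cons_of_mem _ (List.mem_append_right _ ha)

lemma zl_disj {π : Pr} (h : Vd c π) : ∀ a ∈ zl π, a ∉ st c π := (ctl_aux h).1

lemma ctl {π : Pr} (h : Vd c π) {x x' : ℕ} (hx : x ∈ st c π) (hx' : x' ∈ st c π)
    (ht : tp c (zl π) x = tp c (zl π) x') {y : ℕ} (hy : y ∉ st c π) : ee c x y = ee c x' y :=
  (ctl_aux h).2 x hx x' hx' ht y hy

lemma base_not_mem {s : Stp} {π : Pr} (h : Vd c (s :: π)) : s.2.2.1 ∉ s.1 ++ zl π := by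
  obtain ⟨h1, -, h3, h4⟩ := vd_cons.1 h
  rw [List.mem_append]
  rintro (h | h)
  · exact h4 h
  · exact zl_disj h1 _ h h3

lemma st_sub {s : Stp} {π : Pr} (_ : Vd c (s :: π)) :
    ∀ y ∈ st c (s :: π), y ∈ st c π ∧ y ∉ s.1 ++ zl π := by
  intro y hy
  rw [mem_st_cons] at hy
  exact ⟨hy.1, fun h => hy.2.1 (List.mem_cons_of_mem _ h)⟩

lemma vd_app : ∀ {σ π : Pr}, Vd c (σ ++ π) → Vd c π
  | [], _, h => h
  | _ :: _, _, h => vd_app (vd_cons.1 h).1

lemma st_app : ∀ {σ π : Pr}, Vd c (σ ++ π) → st c (σ ++ π) ⊆ st c π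
  | [], _, _ => subset_rfl
  | s :: σ, π, h => fun y hy => st_app (σ := σ) (π := π) (vd_cons.1 h).1 (st_sub (s := s) h y hy).1

/-- the two sides of a step -/
lemma vd_flip {π : Pr} {S : List ℕ} {F : Tab} {x : ℕ} {β : Bool} (γ : Bool)
    (h : Vd c ((S, F, x, β) :: π)) : Vd c ((S, F, x, γ) :: π) := h

lemma st_disj (π : Pr) (S : List ℕ) (F : Tab) (x : ℕ) :
    Disjoint (st c ((S, F, x, true) :: π)) (st c ((S, F, x, false) :: π)) := by
  rw [Set.disjoint_left]
  intro y hy hy'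
  rw [mem_st_cons] at hy hy'
  have h1 := hy.2.2.2 rfl
  have h2 := hy'.2.2.1 h1
  simp at h2

lemma st_cover {π : Pr} {S : List ℕ} {F : Tab} {x : ℕ} {y : ℕ} (h : Vd c π) (hy : y ∈ st c π)
    (hS : y ∉ x :: S) :
    y ∈ st c ((S, F, x, true) :: π) ∨ y ∈ st c ((S, F, x, false) :: π) := by
  have h0 : y ∉ x :: (S ++ zl π) := by
    rw [List.mem_cons, List.mem_append]
    rintro (h1 | h1 | h1)
    · exact hS (h1 ▸ List.mem_cons_self)
    · exact hS (List.mem_cons_of_mem _ h1)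
    · exact zl_disj h y h1 hy
  rw [mem_st_cons, mem_st_cons]
  by_cases h1 : y ∈ hl c F x (S.headD x)
  · exact Or.inl ⟨hy, h0, by simpa using h1⟩
  · exact Or.inr ⟨hy, h0, by simpa using h1⟩

lemma zl_sub_dl (π : Pr) : zl π ⊆ dl π := by
  rw [zl_eq_dl]
  exact fun a ha => ha

lemma dl_sub_cons (s : Stp) (π : Pr) : dl π ⊆ dl (s :: π) := by
  rw [dl_cons]
  intro a ha
  exact List.mem_cons_of_mem _ (List.mem_append_right _ ha)

lemma dl_app (σ π : Pr) : dl π ⊆ dl (σ ++ π) := by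
  induction σ with
  | nil => exact fun a ha => ha
  | cons s σ ih => exact fun a ha => dl_sub_cons s (σ ++ π) (ih ha)

/-- the parameters of an extension are old parameters or lie in the piece -/
lemma dl_ext : ∀ {σ π : Pr}, Vd c (σ ++ π) → ∀ a ∈ dl (σ ++ π), a ∈ dl π ∨ a ∈ st c π
  | [], _, _, _, ha => Or.inl ha
  | s :: σ, π, h, a, ha => by
    have h1 : Vd c (s :: (σ ++ π)) := h
    obtain ⟨h2, h3, h4, -⟩ := vd_cons.1 h1
    have ha' : a ∈ dl (s :: (σ ++ π)) := ha
    rw [dl_cons, List.mem_cons, List.mem_append] at ha'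
    rcases ha' with h5 | h5 | h5
    · rw [h5]
      exact Or.inr (st_app h2 h4)
    · exact Or.inr (st_app h2 (h3 a h5))
    · exact dl_ext h2 a h5

/-! ### renaming -/

lemma mp_nil (h : ℕ → ℕ) : mp h [] = [] := rfl

lemma mp_cons (h : ℕ → ℕ) (s : Stp) (π : Pr) :
    mp h (s :: π) = (s.1.map h, s.2.1, h s.2.2.1, s.2.2.2) :: mp h π := rfl

lemma zl_mp (h : ℕ → ℕ) : ∀ π : Pr, zl (mp h π) = (zl π).map h
  | [] => rfl
  | s :: π => by
    rw [mp_cons, zl_cons, zl_cons, zl_mp h π, List.map_cons, List.map_append]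

lemma dl_mp (h : ℕ → ℕ) : ∀ π : Pr, dl (mp h π) = (dl π).map h
  | [] => rfl
  | s :: π => by
    rw [mp_cons, dl_cons, dl_cons, dl_mp h π, List.map_cons, List.map_append]

lemma mp_mp (h g : ℕ → ℕ) (π : Pr) : mp g (mp h π) = mp (g ∘ h) π := by
  unfold mp
  rw [List.map_map]
  apply List.map_congr_left
  intro s _
  simp

lemma mp_id (π : Pr) : mp id π = π := by
  unfold mp
  conv_rhs => rw [← List.map_id π]
  apply List.map_congr_left
  intro s _
  simp

lemma mp_congr {h g : ℕ → ℕ} : ∀ {π : Pr}, (∀ a ∈ dl π, h a = g a) → mp h π = mp g π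
  | [], _ => rfl
  | s :: π, H => by
    rw [mp_cons, mp_cons]
    rw [dl_cons] at H
    have h1 : s.1.map h = s.1.map g := List.map_congr_left fun a ha =>
      H a (List.mem_cons_of_mem _ (List.mem_append_left _ ha))
    rw [h1, H s.2.2.1 (List.mem_cons_self), mp_congr fun a ha =>
      H a (List.mem_cons_of_mem _ (List.mem_append_right _ ha))]

lemma headD_map (h : ℕ → ℕ) (S : List ℕ) (x : ℕ) : (S.map h).headD (h x) = h (S.headD x) := by
  cases S <;> rfl

/-! ### isomorphisms -/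

lemma ee_iso {c' : ℕ → ℕ → W} {h : ℕ → ℕ} (H : ∀ x y, c' (h x) (h y) = c x y) (x y : ℕ) :
    ee c' (h x) (h y) = ee c x y := by
  unfold ee
  rw [H, H]

lemma tp_iso {c' : ℕ → ℕ → W} {h : ℕ → ℕ} (H : ∀ x y, c' (h x) (h y) = c x y) (L : List ℕ)
    (x : ℕ) : tp c' (L.map h) (h x) = tp c L x := by
  unfold tp
  rw [List.map_map]
  exact List.map_congr_left fun s _ => ee_iso H x s

lemma hl_iso {c' : ℕ → ℕ → W} {h : ℕ → ℕ} (H : ∀ x y, c' (h x) (h y) = c x y) (F : Tab)
    (x y v : ℕ) : h v ∈ hl c' F (h x) (h y) ↔ v ∈ hl c F x y := by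
  unfold hl
  simp only [Set.mem_ofPred_eq, H]

lemma ct_iso {c' : ℕ → ℕ → W} (h : Equiv.Perm ℕ) (H : ∀ x y, c' (h x) (h y) = c x y) :
    CT c' ↔ CT c := by
  constructor
  · intro h1 F x y v v' u e1 e2 e3
    have h2 := h1 F (h x) (h y) (h v) (h v') (h u)
    rw [ee_iso H, ee_iso H, ee_iso H, ee_iso H, ee_iso H, ee_iso H, hl_iso H, hl_iso H] at h2
    exact h2 e1 e2 e3
  · intro h1 F x y v v' u e1 e2 e3
    obtain ⟨x, rfl⟩ := h.surjective x
    obtain ⟨y, rfl⟩ := h.surjective y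
    obtain ⟨v, rfl⟩ := h.surjective v
    obtain ⟨v', rfl⟩ := h.surjective v'
    obtain ⟨u, rfl⟩ := h.surjective u
    rw [ee_iso H, ee_iso H] at e1 e2 ⊢
    rw [hl_iso H, hl_iso H] at e3
    exact h1 F x y v v' u e1 e2 e3

lemma st_iso {c' : ℕ → ℕ → W} (h : Equiv.Perm ℕ) (H : ∀ x y, c' (h x) (h y) = c x y) :
    ∀ π : Pr, st c' (mp h π) = h '' st c π
  | [] => by
    change (univ : Set ℕ) = h '' univ
    rw [Set.image_univ, h.surjective.range_eq]
  | s :: π => by
    have ih := st_iso h H π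
    obtain ⟨S, F, x, β⟩ := s
    ext v
    obtain ⟨v, rfl⟩ := h.surjective v
    have h1 : ∀ A : Set ℕ, h v ∈ h '' A ↔ v ∈ A := fun A => h.injective.mem_set_image
    rw [h1, mp_cons, mem_st_cons, mem_st_cons, ih, h1]
    simp only
    rw [headD_map, hl_iso H, zl_mp, ← List.map_append, ← List.map_cons]
    have h2 : h v ∈ (x :: (S ++ zl π)).map h ↔ v ∈ x :: (S ++ zl π) :=
      ⟨fun h3 => by
        obtain ⟨a, ha, hav⟩ := List.mem_map.1 h3
        exact h.injective hav ▸ ha, fun h3 => List.mem_map_of_mem h3⟩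
    rw [h2]

lemma vd_iso {c' : ℕ → ℕ → W} (h : Equiv.Perm ℕ) (H : ∀ x y, c' (h x) (h y) = c x y) :
    ∀ π : Pr, Vd c' (mp h π) ↔ Vd c π
  | [] => ct_iso h H
  | s :: π => by
    rw [mp_cons, vd_cons, vd_cons, vd_iso h H π]
    simp only
    rw [st_iso h H π]
    have h1 : ∀ a, h a ∈ h '' st c π ↔ a ∈ st c π := fun a =>
      ⟨fun ⟨b, hb, hba⟩ => h.injective hba ▸ hb, fun ha => ⟨a, ha, rfl⟩⟩
    have h2 : (∀ a ∈ s.1.map h, a ∈ h '' st c π) ↔ ∀ a ∈ s.1, a ∈ st c π := by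
      constructor
      · intro h3 a ha
        exact (h1 a).1 (h3 _ (List.mem_map_of_mem ha))
      · intro h3 a ha
        obtain ⟨b, hb, rfl⟩ := List.mem_map.1 ha
        exact (h1 b).2 (h3 b hb)
    have h3 : h s.2.2.1 ∉ s.1.map h ↔ s.2.2.1 ∉ s.1 := by simp
    rw [h2, h1, h3]

/-- a piece is invariant under the automorphisms which fix its parameters -/
lemma st_fix (h : Equiv.Perm ℕ) (H : ∀ x y, c (h x) (h y) = c x y) {π : Pr}
    (hp : ∀ a ∈ dl π, h a = a) : h '' st c π = st c π := by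
  rw [← st_iso h H π]
  congr 1
  rw [mp_congr (g := id) hp, mp_id]

/-- a point outside a piece and its image agree on the piece -/
lemma df_out (g : Equiv.Perm ℕ) (H : ∀ x y, c (g x) (g y) = c x y) (x : ℕ) : ∀ {π : Pr},
    Vd c π → (∀ a ∈ dl π, g a = a) → x ∉ st c π → ∀ u ∈ st c π, ee c x u = ee c (g x) u
  | [], _, _, hx => absurd (mem_univ x) hx
  | s :: π, hv, hp, hx => by
    obtain ⟨S, F, v, β⟩ := s
    intro u hus
    have hp' : ∀ a ∈ dl π, g a = a := fun a ha => hp a (dl_sub_cons _ _ ha)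
    have htp : tp c (zl ((S, F, v, β) :: π)) x = tp c (zl ((S, F, v, β) :: π)) (g x) := by
      rw [tp_eq_iff]
      intro a ha
      have h1 := hp a (zl_sub_dl _ ha)
      conv_rhs => rw [← h1]
      exact (ee_iso H x a).symm
    by_cases hxP : x ∈ st c π
    · by_cases hxL : x ∈ v :: (S ++ zl π)
      · rw [hp x (zl_sub_dl _ hxL)]
      · have e1 : ee c x v = ee c (g x) v := tp_eq_iff.1 htp v List.mem_cons_self
        have e2 : ee c x (S.headD v) = ee c (g x) (S.headD v) := by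
          refine tp_eq_iff.1 htp _ ?_
          rcases List.mem_cons.1 (headD_mem S v) with h | h
          · rw [h]
            exact List.mem_cons_self
          · exact List.mem_cons_of_mem _ (List.mem_append_left _ h)
        refine vd_CT hv F v (S.headD v) x (g x) u e1 e2 ?_
        have h5 : ¬ (x ∈ hl c F v (S.headD v) ↔ β = true) := fun h => hx ⟨hxP, hxL, h⟩
        have h6 := (mem_st_cons.1 hus).2.2
        simp only at h6
        tauto
    · exact df_out g H x (vd_cons.1 hv).1 hp' hxP u (mem_st_cons.1 hus).1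

/-- the difference of a point and its image under an automorphism which fixes the parameters of a
piece is contained in the piece or disjoint from it -/
lemma df_dec (g : Equiv.Perm ℕ) (H : ∀ x y, c (g x) (g y) = c x y) (x : ℕ) {π : Pr}
    (hv : Vd c π) (hp : ∀ a ∈ dl π, g a = a) :
    (∀ u, ee c x u ≠ ee c (g x) u → u ∈ st c π) ∨ ∀ u, ee c x u ≠ ee c (g x) u → u ∉ st c π := by
  by_cases hx : x ∈ st c π
  · left
    intro u hu
    by_contra hcon
    have htp : tp c (zl π) x = tp c (zl π) (g x) := by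
      rw [tp_eq_iff]
      intro a ha
      have h1 := hp a (zl_sub_dl _ ha)
      conv_rhs => rw [← h1]
      exact (ee_iso H x a).symm
    have hgx : g x ∈ st c π := by
      rw [← st_fix g H hp]
      exact mem_image_of_mem g hx
    exact hu (ctl hv hx hgx htp hcon)
  · right
    exact fun u hu hus => hu (df_out g H x hv hp hx u hus)

end Pool.Agent.MO
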