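import Pool.Agent.H76.MO.Basic

/-! Basic facts on the ideal of non-good sets. -/

set_option autoImplicit false

open Set Pool.Agent.TK Pool.Agent.H71.VK

namespace Pool.Agent.MO

variable {c : ℕ → ℕ → W} {Sm : Pr → Prop}

lemma GS.Nn.mono {G : GS c Sm} {A B : Set ℕ} (h : G.Nn B) (hAB : A ⊆ B) : G.Nn A := by
  obtain ⟨Z, hZ⟩ := h
  exact ⟨Z, fun Z' hZ' v hv => hZ Z' hZ' v (hAB hv)⟩

lemma GS.Nn.union {G : GS c Sm} {A B : Set ℕ} (h : G.Nn A) (h' : G.Nn B) : G.Nn (A ∪ B) := by
  obtain ⟨Z, hZ⟩ := h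
  obtain ⟨Y, hY⟩ := h'
  refine ⟨Z ++ Y, fun Z' hZ' v hv => ?_⟩
  rcases hv with hv | hv
  · exact hZ Z' (fun a ha => hZ' (List.mem_append_left _ ha)) v hv
  · exact hY Z' (fun a ha => hZ' (List.mem_append_right _ ha)) v hv

lemma GS.sup_mem (G : GS c Sm) {Z : List ℕ} {v : ℕ} (h : v ∈ Z) : G.sup (v :: Z) ⊆ G.sup Z :=
  G.mono _ _ (by
    intro a ha
    rcases List.mem_cons.1 ha with rfl | ha
    · exact h
    · exact ha)

lemma GS.nn_list (G : GS c Sm) (L : List ℕ) : G.Nn {x | x ∈ L} :=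
  ⟨L, fun _ hZ' _ hv => G.sup_mem (hZ' hv)⟩

lemma GS.nn_empty (G : GS c Sm) : G.Nn ∅ := ⟨[], fun _ _ _ hv => absurd hv (by simp)⟩

lemma GS.nn_finite (G : GS c Sm) {A : Set ℕ} (hA : A.Finite) : G.Nn A := by
  obtain ⟨s, hs⟩ := exists_list hA
  refine (G.nn_list s).mono fun x hx => ?_
  have h1 : x ∈ ms s := by
    rw [hs.1]
    exact hx
  exact h1

/-- a set which is not in the ideal has good points over arbitrarily large lists -/
lemma GS.good {G : GS c Sm} {A : Set ℕ} (h : ¬ G.Nn A) (Z : List ℕ) :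
    ∃ Z', Z ⊆ Z' ∧ ∃ v ∈ A, ¬ G.sup (v :: Z') ⊆ G.sup Z' := by
  unfold GS.Nn at h
  push Not at h
  obtain ⟨Z', h1, v, hv, h2⟩ := h Z
  exact ⟨Z', h1, v, hv, h2⟩

/-- a good point outside a finite list -/
lemma GS.good_out {G : GS c Sm} {A : Set ℕ} (h : ¬ G.Nn A) (Z : List ℕ) :
    ∃ Z', Z ⊆ Z' ∧ ∃ v ∈ A, v ∉ Z' ∧ ¬ G.sup (v :: Z') ⊆ G.sup Z' := by
  obtain ⟨Z', h1, v, hv, h2⟩ := GS.good h Z
  exact ⟨Z', h1, v, hv, fun h3 => h2 (G.sup_mem h3), h2⟩

/-- the whole set is good -/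
lemma GS.good_univ (G : GS c Sm) : ¬ G.Nn univ := by
  intro h
  obtain ⟨Z, hZ⟩ := h
  -- all supports over lists containing Z are contained in the support of Z
  have key : ∀ l : List ℕ, G.sup (l ++ Z) ⊆ G.sup Z := by
    intro l
    induction l with
    | nil => exact Finset.Subset.refl _
    | cons a l ih => exact (hZ (l ++ Z) (List.subset_append_right _ _) a (mem_univ _)).trans ih
  -- the support of Z is invariant under K
  have hinv : ∀ p ∈ G.K, ∀ j ∈ G.sup Z, p.2 j ∈ G.sup Z := by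
    intro p hp j hj
    have h1 := (G.eqv p hp Z j).1 hj
    exact key (Z.map p.1) (G.mono _ _ (List.subset_append_left _ _) h1)
  obtain ⟨a, ha⟩ := G.unb
  obtain ⟨j, hj⟩ := Finset.nonempty_iff_ne_empty.2 ha
  have hjZ : j ∈ G.sup Z := key a (G.mono _ _ (List.subset_append_left _ _) hj)
  -- move j out of the support of Z
  obtain ⟨k, hk⟩ := Infinite.exists_notMem_finset (G.sup Z)
  obtain ⟨h, hh, -⟩ := G.surj [] (Equiv.swap j k) (by
    rw [G.nil]
    intro i hi
    simp at hi)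
  have h2 := hinv _ hh j hjZ
  simp only [Equiv.swap_apply_left] at h2
  exact hk h2

/-- invariance of the ideal -/
lemma GS.Nn.image {G : GS c Sm} {A : Set ℕ} (h : G.Nn A) {p : Equiv.Perm ℕ × Equiv.Perm ℕ}
    (hp : p ∈ G.K) : G.Nn (p.1 '' A) := by
  obtain ⟨Z, hZ⟩ := h
  refine ⟨Z.map p.1, fun Z' hZ' v hv => ?_⟩
  obtain ⟨u, hu, rfl⟩ := hv
  have hq : p⁻¹ ∈ G.K := G.K.inv_mem hp
  have e : (Z'.map (p⁻¹).1).map p.1 = Z' := by
    rw [List.map_map]
    conv_rhs => rw [← List.map_id Z']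
    exact List.map_congr_left fun a _ => by simp
  have h1 := hZ (Z'.map (p⁻¹).1) (by
    intro a ha
    have h2 : p.1 a ∈ Z' := hZ' (List.mem_map_of_mem ha)
    have h3 := List.mem_map_of_mem (f := (p⁻¹).1) h2
    simpa using h3) u hu
  intro j hj
  have e2 : p.1 u :: Z' = (u :: Z'.map (p⁻¹).1).map p.1 := by
    rw [List.map_cons, e]
  rw [e2] at hj
  have h3 : p.2⁻¹ j ∈ G.sup (u :: Z'.map (p⁻¹).1) := by
    rw [G.eqv p hp]
    simpa using hj
  have h4 := (G.eqv p hp _ _).1 (h1 h3)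
  rw [e] at h4
  simpa using h4

/-- the pieces of known type are in the ideal -/
lemma GS.nn_sm (G : GS c Sm) {π : Pr} (h : Vd c π) (hs : Sm π) : G.Nn (st c π) :=
  ⟨dl π, fun Z' hZ' v hv => G.sml π h hs Z' hZ' v hv⟩

/-- a permutation fixing `S` and taking `T` off `U` -/
lemma exists_off (S T U : Finset ℕ) (hST : Disjoint S T) :
    ∃ σ : Equiv.Perm ℕ, (∀ j ∈ S, σ j = j) ∧ ∀ j ∈ T, σ j ∉ U := by
  classical
  -- choose an injection of `T` into the complement of `S ∪ T ∪ U`
  obtain ⟨N, hN⟩ : ∃ N : ℕ, ∀ j ∈ S ∪ T ∪ U, j < N :=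
    ⟨(S ∪ T ∪ U).sup id + 1, fun j hj => Nat.lt_succ_of_le (Finset.le_sup (f := id) hj)⟩
  refine ⟨{ toFun := fun j => if j ∈ T then j + N else if j ∈ T.image (· + N) then j - N else j
            invFun := fun j => if j ∈ T then j + N else if j ∈ T.image (· + N) then j - N else j
            left_inv := ?_
            right_inv := ?_ }, ?_, ?_⟩
  · intro j
    simp only
    by_cases h1 : j ∈ T
    · have h2 : j + N ∉ T := fun h => by
        have := hN (j + N) (by simp [h])
        omega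
      have h3 : j + N ∈ T.image (· + N) := Finset.mem_image.2 ⟨j, h1, rfl⟩
      simp only [h1, if_true, h2, if_false, h3]
      omega
    · by_cases h2 : j ∈ T.image (· + N)
      · obtain ⟨i, hi, rfl⟩ := Finset.mem_image.1 h2
        have h3 : i + N - N = i := by omega
        simp only [h1, if_false, h2, if_true, h3, hi]
      · simp only [h1, if_false, h2]
  · intro j
    simp only
    by_cases h1 : j ∈ T
    · have h2 : j + N ∉ T := fun h => by
        have := hN (j + N) (by simp [h])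
        omega
      have h3 : j + N ∈ T.image (· + N) := Finset.mem_image.2 ⟨j, h1, rfl⟩
      simp only [h1, if_true, h2, if_false, h3]
      omega
    · by_cases h2 : j ∈ T.image (· + N)
      · obtain ⟨i, hi, rfl⟩ := Finset.mem_image.1 h2
        have h3 : i + N - N = i := by omega
        simp only [h1, if_false, h2, if_true, h3, hi]
      · simp only [h1, if_false, h2]
  · intro j hj
    have h1 : j ∉ T := fun h => Finset.disjoint_left.1 hST hj h
    have h2 : j ∉ T.image (· + N) := by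
      intro h
      obtain ⟨i, hi, hij⟩ := Finset.mem_image.1 h
      have := hN j (by simp [hj])
      omega
    change (if j ∈ T then j + N else if j ∈ T.image (· + N) then j - N else j) = j
    rw [if_neg h1, if_neg h2]
  · intro j hj h
    have h1 : j + N ∈ U := by
      change (if j ∈ T then j + N else _) ∈ U at h
      rwa [if_pos hj] at h
    have := hN (j + N) (by simp [h1])
    omega

/-- LEMMA A: an invariant set in the ideal has no good points -/
lemma GS.lemA (G : GS c Sm) {A : Set ℕ} (hA : G.Nn A) {Z : List ℕ}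
    (hinv : ∀ p ∈ G.K, (∀ z ∈ Z, p.1 z = z) → ∀ y ∈ A, p.1 y ∈ A) :
    ∀ y ∈ A, G.sup (y :: Z) ⊆ G.sup Z := by
  classical
  intro y hy
  by_contra hcon
  obtain ⟨j, hj, hjZ⟩ := Finset.not_subset.1 hcon
  obtain ⟨Y, hY⟩ := hA
  obtain ⟨σ, h1, h2⟩ := exists_off (G.sup Z) {j} (G.sup (Z ++ Y)) (by simpa using hjZ)
  obtain ⟨h, hh, hfix⟩ := G.surj Z σ h1
  have h3 := (G.eqv _ hh (y :: Z) j).1 hj
  simp only at h3
  have e : Z.map h = Z := by
    conv_rhs => rw [← List.map_id Z]
    exact List.map_congr_left hfix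
  rw [List.map_cons, e] at h3
  have h4 := hY (Z ++ Y) (List.subset_append_right _ _) (h y) (hinv _ hh hfix y hy)
  have h5 : σ j ∈ G.sup (Z ++ Y) := h4 (G.mono _ _ (by
    intro a ha
    rcases List.mem_cons.1 ha with rfl | ha
    · exact List.mem_cons_self
    · exact List.mem_cons_of_mem _ (List.mem_append_left _ ha)) h3)
  exact h2 j (by simp) h5

end Pool.Agent.MO
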