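import Pool.Agent.H76.CW.Defs

/-!
Definitions for Vaught's conjecture on Borel classes of linear orders with monotone relations.
The values of pairs are sets of terms. The pieces are quantifier-free definable.
-/

set_option autoImplicit false

open Set Pool.Agent.TK Pool.Agent.H71.VK

namespace Pool.Agent.MO

/-- Terms for monotone relations. Every term has a source and a target in `Bool`, where `true`
stands for the order and `false` for the reversed order: strict order, given relations,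
composition, complement of the inverse, complement. -/
inductive Tm : Type
  | lt : Bool → Tm
  | rel : ℕ → Bool → Bool → Tm
  | comp : Tm → Tm → Tm
  | inv : Tm → Tm
  | neg : Tm → Tm
  deriving Encodable

/-- source and target of a term -/
def Tm.ty : Tm → Bool × Bool
  | .lt ε => (ε, ε)
  | .rel _ ε δ => (ε, δ)
  | .comp a b => (a.ty.1, b.ty.2)
  | .inv a => (a.ty.2, a.ty.1)
  | .neg a => (!a.ty.1, !a.ty.2)

/-- operators: `some t` is composition with `t`, `none` is the complement -/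
def Tm.act (r : Tm) : List (Option Tm) → Tm
  | [] => r
  | some t :: p => Tm.act (r.comp t) p
  | none :: p => Tm.act r.neg p

/-- the values of pairs -/
abbrev W := Tm → Bool

/-- the value without terms -/
def w0 : W := fun _ => false

/-- types over finite lists -/
abbrev Ty := List (W × W)

/-- the indices of the definable sets -/
abbrev Tab := Tm × Tm

/-- the values of a pair in both directions -/
def ee (c : ℕ → ℕ → W) (x y : ℕ) : W × W := (c x y, c y x)

/-- the type of a point over a list -/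
def tp (c : ℕ → ℕ → W) (L : List ℕ) (x : ℕ) : Ty := L.map (fun s => ee c x s)

/-- the basic definable sets: some operator distinguishes the cuts given by `F.1` at `x` and by
`F.2` at `y` -/
def hl (c : ℕ → ℕ → W) (F : Tab) (x y : ℕ) : Set ℕ :=
  {v | F.1.ty.2 = F.2.ty.2 ∧ ∃ p : List (Option Tm), c x v (F.1.act p) ≠ c y v (F.2.act p)}

/-- the basic definable sets and their complements are controlled by the parameters -/
def CT (c : ℕ → ℕ → W) : Prop :=
  ∀ (F : Tab) (x y v v' u : ℕ), ee c v x = ee c v' x → ee c v y = ee c v' y →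
    (v ∈ hl c F x y ↔ u ∉ hl c F x y) → ee c v u = ee c v' u

/-- steps: parameters, index, base point, and `true` for the definable set, `false` for its
complement -/
abbrev Stp := List ℕ × Tab × ℕ × Bool

/-- presentations of pieces: lists of steps, the last step is the head -/
abbrev Pr := List Stp

/-- the control list -/
def zl : Pr → List ℕ
  | [] => []
  | s :: π => s.2.2.1 :: (s.1 ++ zl π)

/-- all parameters -/
def dl : Pr → List ℕ
  | [] => []
  | s :: π => s.2.2.1 :: (s.1 ++ dl π)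

/-- the piece with a given presentation; the second parameter of the definable set is the first
element of the list, if there is one -/
def st (c : ℕ → ℕ → W) : Pr → Set ℕ
  | [] => univ
  | s :: π => {v | v ∈ st c π ∧ v ∉ s.2.2.1 :: (s.1 ++ zl π) ∧
      (v ∈ hl c s.2.1 s.2.2.1 (s.1.headD s.2.2.1) ↔ s.2.2.2 = true)}

/-- valid presentations: the parameters lie in the current piece -/
def Vd (c : ℕ → ℕ → W) : Pr → Prop
  | [] => CT c
  | s :: π => Vd c π ∧ (∀ a ∈ s.1, a ∈ st c π) ∧ s.2.2.1 ∈ st c π ∧ s.2.2.1 ∉ s.1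

/-- renaming of the parameters -/
def mp (h : ℕ → ℕ) (π : Pr) : Pr := π.map (fun s => (s.1.map h, s.2.1, h s.2.2.1, s.2.2.2))

/-- comparison in the order or in the reversed order -/
def le' (c : ℕ → ℕ → W) (ε : Bool) (x y : ℕ) : Prop :=
  x = y ∨ (if ε = true then c x y (Tm.lt true) = true else c y x (Tm.lt true) = true)

/-- the axioms of monotone structures: `lt` is a linear order, all terms are monotone, the terms
have the intended meaning -/
structure Mo (c : ℕ → ℕ → W) : Prop where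
  irr : ∀ x, c x x (Tm.lt true) = false
  tri : ∀ x y, x ≠ y → c x y (Tm.lt true) = true ∨ c y x (Tm.lt true) = true
  tra : ∀ x y z, c x y (Tm.lt true) = true → c y z (Tm.lt true) = true →
    c x z (Tm.lt true) = true
  rev : ∀ x y, c x y (Tm.lt false) = c y x (Tm.lt true)
  mon : ∀ (t : Tm) (x x' y y' : ℕ), le' c t.ty.1 x' x → c x y t = true → le' c t.ty.2 y y' →
    c x' y' t = true
  comp : ∀ (a b : Tm), a.ty.2 = b.ty.1 → ∀ x y,
    (c x y (a.comp b) = true ↔ ∃ z, c x z a = true ∧ c z y b = true)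
  comp' : ∀ (a b : Tm), a.ty.2 ≠ b.ty.1 → ∀ x y, c x y (a.comp b) = false
  inv : ∀ (a : Tm) (x y : ℕ), c y x a.inv = !c x y a
  neg : ∀ (a : Tm) (x y : ℕ), c x y a.neg = !c x y a

/-- The group and the supports: `K` is a group of pairs, `sup` are the least supports, `Sm` is
the set of the presentations of small pieces. -/
structure GS (c : ℕ → ℕ → W) (Sm : Pr → Prop) where
  K : Subgroup (Equiv.Perm ℕ × Equiv.Perm ℕ)
  sup : List ℕ → Finset ℕ
  aut : ∀ p ∈ K, ∀ x y, c (p.1 x) (p.1 y) = c x y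
  mono : ∀ a b : List ℕ, a ⊆ b → sup a ⊆ sup b
  eqv : ∀ p ∈ K, ∀ (a : List ℕ) (j : ℕ), j ∈ sup a ↔ p.2 j ∈ sup (a.map p.1)
  surj : ∀ (a : List ℕ) (σ : Equiv.Perm ℕ), (∀ j ∈ sup a, σ j = j) →
    ∃ h : Equiv.Perm ℕ, (h, σ) ∈ K ∧ ∀ x ∈ a, h x = x
  nil : sup [] = ∅
  unb : ∃ a, sup a ≠ ∅
  sml : ∀ π : Pr, Vd c π → Sm π → ∀ Z : List ℕ, dl π ⊆ Z → ∀ v ∈ st c π,
    sup (v :: Z) ⊆ sup Z

/-- the ideal of the sets which are not good -/
def GS.Nn {c : ℕ → ℕ → W} {Sm : Pr → Prop} (G : GS c Sm) (A : Set ℕ) : Prop :=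
  ∃ Z : List ℕ, ∀ Z' : List ℕ, Z ⊆ Z' → ∀ v ∈ A, G.sup (v :: Z') ⊆ G.sup Z'

/-- Cantor scheme of pieces `D s` with blocks `B s` -/
structure Sch (c : ℕ → ℕ → W) (Sm : Pr → Prop) (D B : List Bool → Pr) : Prop where
  vD : ∀ s, Vd c (D s)
  vB : ∀ s, Vd c (B s)
  suf : ∀ i s, ∃ σ : Pr, D (i :: s) = σ ++ D s
  suB : ∀ s, ∃ σ : Pr, B s = σ ++ D s
  dj : ∀ s, Disjoint (st c (D (true :: s))) (st c (D (false :: s)))
  djB : ∀ i s, Disjoint (st c (B s)) (st c (D (i :: s)))
  pD : ∀ s t, ∀ a ∈ dl (D s), a ∉ st c (B t)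
  pB : ∀ s t, ∀ a ∈ dl (B s), a ∉ st c (B t)
  dec : ∀ ρ : Pr, Vd c ρ → ∃ m : ℕ, ∀ s : List Bool, m ≤ s.length →
    st c (D s) ⊆ st c ρ ∨ Disjoint (st c (D s)) (st c ρ)
  vtx : ∀ v : ℕ, ∃ m : ℕ, ∀ s : List Bool, m ≤ s.length → v ∉ st c (D s)
  ne : ∀ s, (st c (B s)).Nonempty
  big : ∀ s, ¬ Sm (B s)

/-! ### structures -/

/-- the rank `omega ^ 2` -/
def om2 : Rk := Rk.sup (fun n => (Rk.lim^[n]) Rk.zero)

section
variable {C : Type}

/-- the binary part of a structure -/
def bn (M : St (C × W)) (x y : ℕ) : W := (M.2 [x, y]).2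

/-- binary structures; the graph is complete -/
def BV (c0 : C) (M : St (C × W)) : Prop :=
  (∀ u v, M.1 u v = decide (u ≠ v)) ∧ M.2 [] = (c0, w0) ∧ (∀ x, (M.2 [x]).2 = w0) ∧
    (∀ x y, (M.2 [x, y]).1 = c0) ∧
    ∀ l : List ℕ, 3 ≤ l.length → M.2 l = (c0, w0)

/-- triples: a structure, a list and a set -/
abbrev Tr (C : Type) := St (C × W) × List ℕ × Set ℕ

/-- the type of `(M, z, P)` is in `O` -/
def InO (O : Set (Tr C)) (M : St (C × W)) (z : List ℕ) (P : Set ℕ) : Prop :=
  ∃ t ∈ O, FI M z P t.1 t.2.1 t.2.2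

/-- only countably many types are equivalent of rank `b` to `(M, z, P)` -/
def sml (c0 : C) (b : Rk) (M : St (C × W)) (z : List ℕ) (P : Set ℕ) : Prop :=
  ∃ T : Set (Tr C), T.Countable ∧ ∀ (N : St (C × W)) (z' : List ℕ) (Q : Set ℕ), BV c0 N →
    FB b M z P N z' Q → InO T N z' Q

/-- the hypotheses on the class -/
structure Hy [MeasurableSpace C] (c0 : C) (b : Rk) (X : Set (St (C × W))) : Prop where
  val : ∀ M ∈ X, BV c0 M
  cl : Cl b X
  tc : TC X
  nf : NoFam X
  base : RLe (C × W) (Rk.lim (Rk.lim om2)) b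

open Classical in
/-- the point of the block `B i` of `M` which stands for the point `x` of the block of `R i` -/
noncomputable def rh {ι : Type} (M : St (C × W)) (B : ι → Set ℕ) (z : ι → List ℕ)
    (R : ι → St (C × W)) (T : Set ι) (x : ℕ) : ℕ :=
  if h : ∃ i ∈ T, x ∈ B i then
    (if h' : ∃ y ∈ B h.choose, tp (bn M) (z h.choose) y = tp (bn (R h.choose)) (z h.choose) x
      then h'.choose else x)
  else x

open Classical in
/-- replacement of the blocks `B i`, `i ∈ T`, by the structures `R i` -/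
noncomputable def rp {ι : Type} (M : St (C × W)) (B : ι → Set ℕ) (z : ι → List ℕ)
    (R : ι → St (C × W)) (T : Set ι) : St (C × W) :=
  (M.1, fun l => if h : ∃ i ∈ T, l ≠ [] ∧ ∀ x ∈ l, x ∈ B i then (R h.choose).2 l
    else M.2 (l.map (rh M B z R T)))

/-- admissible replacement data -/
structure RA {ι : Type} (c0 : C) (b : Rk) (M : St (C × W)) (B : ι → Set ℕ)
    (z : ι → List ℕ) (R : ι → St (C × W)) : Prop where
  val : BV c0 M
  vaR : ∀ i, BV c0 (R i)
  disj : ∀ i j, i ≠ j → Disjoint (B i) (B j)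
  avo : ∀ i j, ∀ x ∈ z i, x ∉ B j
  ctl : ∀ i, ∀ x ∈ B i, ∀ x' ∈ B i, tp (bn M) (z i) x = tp (bn M) (z i) x' →
    ∀ y, y ∉ B i → ee (bn M) x y = ee (bn M) x' y
  fb : ∀ i, FB b M (z i) (B i) (R i) (z i) (B i)
  base : RLe (C × W) (Rk.lim (Rk.lim om2)) b

open Classical in
/-- positions between `rp T` and `rp T'`, where `Δ = T \ T'` -/
def Ps {ι : Type} (M : St (C × W)) (B : ι → Set ℕ) (z : ι → List ℕ) (R : ι → St (C × W))
    (Δ : Set ι) (r : Rk) (p : List (ℕ × ℕ)) : Prop :=
  (∀ q ∈ p, (∀ i ∈ Δ, q.1 ∉ B i) → q.1 = q.2) ∧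
  (∀ q ∈ p, ∀ i ∈ Δ, (q.1 ∈ B i ↔ q.2 ∈ B i)) ∧
  ∀ i ∈ Δ, bf (R i) M (B i) (B i) r (dg (z i) ++ p.filter (fun q => decide (q.1 ∈ B i)))

/-! ### the space of points at infinity -/

/-- the nonempty piece `ρ` of `N` lies in all pieces of `l` and its type is not in `T` -/
def Bg (T : Set (Tr C)) (N : St (C × W)) (l : List Pr) (ρ : Pr) : Prop :=
  Vd (bn N) ρ ∧ (st (bn N) ρ).Nonempty ∧ (∀ π ∈ l, st (bn N) ρ ⊆ st (bn N) π) ∧
    ¬ InO T N (zl ρ) (st (bn N) ρ)

/-- the space of points at infinity of `N` -/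
def Om (T : ℕ → Set (Tr C)) (N : St (C × W)) : Set (Pr → Bool) :=
  {w | w [] = true ∧ (∀ π, w π = true → Vd (bn N) π) ∧
    (∀ s π, w (s :: π) = true → w π = true) ∧
    (∀ (π : Pr) (S : List ℕ) (F : Tab) (x : ℕ), w π = true → Vd (bn N) ((S, F, x, true) :: π) →
      (w ((S, F, x, true) :: π) = true ↔ w ((S, F, x, false) :: π) = false)) ∧
    ∀ l : List Pr, (∀ π ∈ l, w π = true) → ∀ i, ∃ ρ, Bg (T i) N l ρ}

/-- initial segments of branches; the last bit is the head -/
abbrev pre := Pool.Agent.CW.pre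

/-- the branches through a set of nodes -/
abbrev Br := Pool.Agent.CW.Br

/-- the types of the pieces of the structures in which only blocks of index less than `i` are
replaced -/
def TT (M : St (C × W)) (B : List Bool → Set ℕ) (z : List Bool → List ℕ)
    (R : List Bool → St (C × W)) (i : ℕ) : Set (Tr C) :=
  {t | ∃ σ : Set (List Bool), (∀ s ∈ σ, Encodable.encode s < i) ∧ ∃ π : Pr,
    Vd (bn (rp M B z R σ)) π ∧
      t = (rp M B z R σ, zl π, st (bn (rp M B z R σ)) π)}

/-- the data of the decoding -/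
structure DT (c0 : C) (b : Rk) (M : St (C × W)) (Sm : Pr → Prop)
    (D B : List Bool → Pr) (R : List Bool → St (C × W)) : Prop where
  sch : Sch (bn M) Sm D B
  ra : RA c0 b M (fun s => st (bn M) (B s)) (fun s => zl (B s)) R
  new : ∀ s, ¬ InO (TT M (fun s => st (bn M) (B s)) (fun s => zl (B s)) R (Encodable.encode s))
    (R s) (zl (B s)) (st (bn M) (B s))

/-! ### the group generated by local automorphisms -/

/-- `f` is an automorphism which moves only points of one piece whose type is in `O` -/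
def IsA (O : Set (Tr C)) (M : St (C × W)) (f : Equiv.Perm ℕ) : Prop :=
  IsoH f M M ∧ ∃ π : Pr, Vd (bn M) π ∧ InO O M (zl π) (st (bn M) π) ∧
    ∀ x, x ∉ st (bn M) π → f x = x

/-- the group -/
def NG (O : Set (Tr C)) (M : St (C × W)) : Subgroup (Equiv.Perm ℕ) :=
  Subgroup.closure {f | IsA O M f}

/-- moves of lists -/
def MvA (O : Set (Tr C)) (M : St (C × W)) (l m : List ℕ) : Prop := ∃ f, IsA O M f ∧ l.map f = m

/-- the small pieces of a structure -/
def SmO (O : Set (Tr C)) (M : St (C × W)) (π : Pr) : Prop := InO O M (zl π) (st (bn M) π)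

end

end Pool.Agent.MO
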