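import Pool.Agent.H76.MO.BasicB

/-!
Statements of group B: control, splitting, deciding, scheme for linear orders with monotone
relations.
-/

set_option autoImplicit false

open Set Pool.Agent.TK Pool.Agent.H71.VK

namespace Pool.Agent.MO

/-- the reflexive order -/
def leT : Tm := Tm.inv (Tm.lt true)

/-- CTM: the control axiom holds in monotone structures. -/
def T_CTM : Prop := ∀ c : ℕ → ℕ → W, Mo c → CT c

/-- CL2: fresh conjugates have a large difference. -/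
def T_CL2 : Prop :=
  ∀ (c : ℕ → ℕ → W) (Sm : Pr → Prop) (G : GS c Sm), Mo c → ∀ (P : Set ℕ) (Z : List ℕ),
    (∀ p ∈ G.K, (∀ z ∈ Z, p.1 z = z) → ∀ y ∈ P, p.1 y ∈ P) → ∀ y ∈ P,
    ¬ G.sup (y :: Z) ⊆ G.sup Z → ∀ p ∈ G.K, (∀ z ∈ Z, p.1 z = z) →
    (∀ j ∈ G.sup (y :: Z), j ∉ G.sup Z → j ∉ G.sup (p.1 y :: Z)) →
    c y (p.1 y) (Tm.lt true) = true → ¬ G.Nn {v | v ∈ P ∧ ee c y v ≠ ee c (p.1 y) v}

/-- SPL: good pieces can be split. -/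
def T_SPL : Prop :=
  ∀ (c : ℕ → ℕ → W) (Sm : Pr → Prop) (G : GS c Sm), Mo c → ∀ π : Pr,
    Vd c π → ¬ G.Nn (st c π) → ∃ (S : List ℕ) (F : Tab) (x : ℕ),
      Vd c ((S, F, x, true) :: π) ∧ ¬ G.Nn (st c ((S, F, x, true) :: π)) ∧
      ¬ G.Nn (st c ((S, F, x, false) :: π))

/-- NOD: the node of the scheme. -/
def T_NOD : Prop :=
  ∀ (c : ℕ → ℕ → W) (Sm : Pr → Prop) (G : GS c Sm), Mo c → ∀ π : Pr,
    Vd c π → ¬ G.Nn (st c π) → ∀ (Z : List ℕ) (ρ : Pr), Vd c ρ →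
    ∃ f : Fin 3 → Pr, ∀ i, (∃ σ : Pr, f i = σ ++ π) ∧ Vd c (f i) ∧ ¬ G.Nn (st c (f i)) ∧
      (∀ a ∈ Z, a ∉ st c (f i)) ∧ (∀ j, ∀ a ∈ dl (f i), a ∉ st c (f j)) ∧
      (∀ j, i ≠ j → Disjoint (st c (f i)) (st c (f j))) ∧
      (st c (f i) ⊆ st c ρ ∨ Disjoint (st c (f i)) (st c ρ))

/-- SCH: the Cantor scheme. -/
def T_SCH : Prop :=
  ∀ (c : ℕ → ℕ → W) (Sm : Pr → Prop) (_ : GS c Sm), Mo c →
    ∃ D B : List Bool → Pr, Sch c Sm D B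

end Pool.Agent.MO
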